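import Pool.Agent.K4H3.CH.Ht

set_option autoImplicit false

open Polynomial Finset

namespace Pool.Agent.K4H3.CH

open Pool.Agent.Helper781.CycHouse

lemma mean_zero (N : ℕ) : mean N 0 = 0 := by unfold mean; simp

lemma mean_eq_zero {N : ℕ} (hN : 0 < N) (f : ℤ[X]) {z : ℂ} (hz : IsPrimitiveRoot z N)
    (h : aeval z f = 0) : mean N f = 0 := by
  rw [mean_congr hN f 0 hz (by simpa using h), mean_zero]

lemma split_root {p m : ℕ} (hp : 0 < p) (hm : 0 < m) (hpm : p.Coprime m) {z : ℂ}
    (hz : IsPrimitiveRoot z (p * m)) :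
    ∃ w η : ℂ, IsPrimitiveRoot w p ∧ IsPrimitiveRoot η m ∧ w * η = z := by
  classical
  have h1 := sum_prim_coprime hp hm hpm (fun x => if x = z then 1 else 0)
  rw [sum_ite_eq', if_pos ((mem_prim (Nat.mul_pos hp hm)).mpr hz)] at h1
  by_contra hcon
  push Not at hcon
  have h2 : ∑ η ∈ primitiveRoots m ℂ, ∑ w ∈ primitiveRoots p ℂ,
      (if w * η = z then (1 : ℝ) else 0) = 0 := by
    refine sum_eq_zero fun η hη => sum_eq_zero fun w hw => ?_
    rw [if_neg (hcon w η ((mem_prim hp).mp hw) ((mem_prim hm).mp hη))]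
  rw [h2] at h1
  exact one_ne_zero h1

/-- The basic decomposition for a prime `p` not dividing `m`. -/
lemma cop_data {p m : ℕ} (hp : p.Prime) (hm : 0 < m) (hpm : p.Coprime m) (f : ℤ[X]) {w η : ℂ}
    (hw : IsPrimitiveRoot w p) (hη : IsPrimitiveRoot η m) :
    ∃ (a : ℕ → ℤ[X]) (i0 : ℕ) (T : Finset ℕ), T ⊆ range p ∧
      (∀ j ∈ T, aeval η (a j) ≠ aeval η (a i0)) ∧
      ((p : ℝ) - 1) * mean (p * m) f = ((p : ℝ) - T.card) * ∑ j ∈ T, mean m (a j - a i0) +
        (1 / 2) * ∑ i ∈ T, ∑ j ∈ T, mean m (a i - a j) ∧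
      (p : ℝ) * T.card ≤ 2 * (((p : ℝ) - 1) * mean (p * m) f) ∧
      aeval (w * η) f = ∑ i ∈ T, w ^ i * aeval η (a i - a i0) := by
  classical
  obtain ⟨s, rfl⟩ := exists_sections hp.pos f
  have hid := mean_coprime hp hm hpm s
  rw [aeval_coprime s hw.pow_eq_one η]
  generalize hF : mean (p * m) (∑ i ∈ range p, X ^ i * expand ℤ p (s i)) = μ at hid ⊢
  obtain ⟨a, ha⟩ : ∃ a : ℕ → ℤ[X], ∀ i, X ^ i * expand ℤ p (s i) = a i := ⟨_, fun i => rfl⟩
  simp only [ha] at hid ⊢
  set v : ℕ → ℂ := fun i => aeval η (a i) with hv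
  have hp0 : (range p).Nonempty := ⟨0, mem_range.mpr hp.pos⟩
  obtain ⟨i0, hi0, hmax⟩ := exists_max_image (range p)
    (fun i => ((range p).filter fun j => v j = v i).card) hp0
  set T := (range p).filter fun j => v j ≠ v i0 with hT
  set T' := (range p).filter fun j => v j = v i0 with hT'
  have hcardTT : T'.card + T.card = p := by
    rw [hT, hT', card_filter_add_card_filter_not]
    exact card_range p
  have hTp : (T'.card : ℝ) = p - T.card := by
    have : ((T'.card + T.card : ℕ) : ℝ) = p := by rw [hcardTT]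
    push_cast at this
    linarith
  have hwsum : ∑ i ∈ range p, w ^ i = 0 := hw.geom_sum_eq_zero hp.one_lt
  have hsum : ∑ i ∈ range p, w ^ i * v i = ∑ i ∈ T, w ^ i * aeval η (a i - a i0) := by
    have h1 : ∑ i ∈ range p, w ^ i * v i = ∑ i ∈ range p, w ^ i * aeval η (a i - a i0) := by
      have : ∑ i ∈ range p, w ^ i * aeval η (a i - a i0) =
          ∑ i ∈ range p, w ^ i * v i - (∑ i ∈ range p, w ^ i) * v i0 := by
        rw [sum_mul, ← sum_sub_distrib]
        refine sum_congr rfl fun i _ => ?_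
        simp only [hv, map_sub]; ring
      rw [this, hwsum]; ring
    rw [h1]
    symm
    apply sum_subset (filter_subset _ _)
    intro i hi hi'
    rw [mem_filter, not_and, not_not] at hi'
    rw [map_sub, show aeval η (a i) = aeval η (a i0) from hi' hi, sub_self, mul_zero]
  -- lower bounds
  have hone : ∀ i j, v i ≠ v j → 1 ≤ mean m (a i - a j) := by
    intro i j hij
    refine one_le_mean hm _ hη ?_
    rw [map_sub]
    exact sub_ne_zero.mpr hij
  have hα : (p : ℝ) * T.card ≤ ∑ i ∈ range p, ∑ j ∈ range p, mean m (a i - a j) := by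
    have h1 : ∀ i ∈ range p, (T.card : ℝ) ≤ ∑ j ∈ range p, mean m (a i - a j) := by
      intro i hi
      have h2 : (((range p).filter fun j => v j ≠ v i).card : ℝ) ≤
          ∑ j ∈ (range p).filter (fun j => v j ≠ v i), mean m (a i - a j) := by
        have := card_nsmul_le_sum ((range p).filter fun j => v j ≠ v i)
          (fun j => mean m (a i - a j)) 1 (fun j hj => by
            rw [mem_filter] at hj
            exact hone i j (Ne.symm hj.2))
        simpa using this
      have h3 : ∑ j ∈ (range p).filter (fun j => v j ≠ v i), mean m (a i - a j) ≤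
          ∑ j ∈ range p, mean m (a i - a j) :=
        sum_le_sum_of_subset_of_nonneg (filter_subset _ _) fun _ _ _ => mean_nonneg _ _
      have h4 := hmax i hi
      have h5 : ((range p).filter fun j => v j = v i).card +
          ((range p).filter fun j => v j ≠ v i).card = p := by
        rw [card_filter_add_card_filter_not]
        exact card_range p
      have h6 : T.card ≤ ((range p).filter fun j => v j ≠ v i).card := by
        omega
      have h7 : (T.card : ℝ) ≤ ((range p).filter fun j => v j ≠ v i).card := by exact_mod_cast h6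
      linarith
    have := card_nsmul_le_sum (range p) (fun i => ∑ j ∈ range p, mean m (a i - a j)) _ h1
    rw [card_range, nsmul_eq_mul] at this
    exact this
  have hT'v : ∀ i ∈ T', aeval η (a i) = aeval η (a i0) := by
    intro i hi
    rw [hT', mem_filter] at hi
    exact hi.2
  have e1 : ∑ i ∈ T', ∑ j ∈ T, mean m (a i - a j) = T'.card * ∑ j ∈ T, mean m (a j - a i0) := by
    rw [← nsmul_eq_mul, ← sum_const]
    refine sum_congr rfl fun i hi => sum_congr rfl fun j _ => ?_
    rw [mean_sub_comm]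
    refine mean_congr hm _ _ hη ?_
    rw [map_sub, map_sub, hT'v i hi]
  have e2 : ∑ i ∈ T, ∑ j ∈ T', mean m (a i - a j) = T'.card * ∑ j ∈ T, mean m (a j - a i0) := by
    rw [sum_comm, ← nsmul_eq_mul, ← sum_const]
    refine sum_congr rfl fun i hi => sum_congr rfl fun j _ => ?_
    refine mean_congr hm _ _ hη ?_
    rw [map_sub, map_sub, hT'v i hi]
  have e3 : ∑ i ∈ T', ∑ j ∈ T', mean m (a i - a j) = 0 := by
    refine sum_eq_zero fun i hi => sum_eq_zero fun j hj => ?_
    refine mean_eq_zero hm _ hη ?_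
    rw [map_sub, hT'v i hi, hT'v j hj, sub_self]
  have hsplit : ∀ g : ℕ → ℝ, ∑ i ∈ range p, g i = ∑ i ∈ T', g i + ∑ i ∈ T, g i := by
    intro g
    rw [hT, hT']
    exact (sum_filter_add_sum_filter_not _ _ _).symm
  have hfull : ∑ i ∈ range p, ∑ j ∈ range p, mean m (a i - a j) =
      2 * (((p : ℝ) - T.card) * ∑ j ∈ T, mean m (a j - a i0)) +
        ∑ i ∈ T, ∑ j ∈ T, mean m (a i - a j) := by
    rw [hsplit]
    simp only [hsplit (fun j => mean m (a _ - a j))]
    rw [sum_add_distrib, sum_add_distrib, e1, e2, e3, hTp]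
    ring
  refine ⟨a, i0, T, filter_subset _ _, ?_, ?_, ?_, hsum⟩
  · intro j hj
    rw [hT, mem_filter] at hj
    exact hj.2
  · rw [hid, hfull]; ring
  · rw [hid]; linarith

end Pool.Agent.K4H3.CH
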