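import Pool.Agent.Helper781.CycHouse.House

set_option autoImplicit false

open Polynomial Finset

namespace Pool.Agent.K4H3.CH

open Pool.Agent.Helper781.CycHouse

/-- The Cassels height: the average of `|x|^2` over the conjugates of `β`. -/
noncomputable def Ht (β : ℂ) : ℝ :=
  (((minpoly ℚ β).aroots ℂ).map fun x => ‖x‖ ^ 2).sum / (minpoly ℚ β).natDegree

open IntermediateField in
/-- Sum over all embeddings of a number field of a function of the image of an element. -/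
lemma sum_embeddings (K : Type) [Field K] [NumberField K] (x : K) (g : ℂ → ℝ) :
    ∑ σ : K →ₐ[ℚ] ℂ, g (σ x) =
      Module.finrank ℚ⟮x⟯ K * (((minpoly ℚ x).aroots ℂ).map g).sum := by
  classical
  have hx : IsIntegral ℚ x := Algebra.IsSeparable.isIntegral ℚ x
  let pb := adjoin.powerBasis hx
  have : FiniteDimensional ℚ⟮x⟯ K := FiniteDimensional.right ℚ ℚ⟮x⟯ K
  have : Algebra.IsSeparable ℚ⟮x⟯ K := Algebra.isSeparable_tower_top_of_isSeparable ℚ ℚ⟮x⟯ K
  have h1 : ∑ σ : K →ₐ[ℚ] ℂ, g (σ x) =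
      ∑ τ : ℚ⟮x⟯ →ₐ[ℚ] ℂ, (Module.finrank ℚ⟮x⟯ K : ℝ) * g (τ pb.gen) := by
    rw [Fintype.sum_equiv algHomEquivSigma (fun σ : K →ₐ[ℚ] ℂ => _) fun σ => g (σ.1 pb.gen),
      ← Finset.univ_sigma_univ, Finset.sum_sigma]
    · refine Finset.sum_congr rfl fun σ _ => ?_
      let : Algebra ℚ⟮x⟯ ℂ := σ.toRingHom.toAlgebra
      simp_rw [Finset.sum_const, Finset.card_univ, ← AlgHom.card ℚ⟮x⟯ K ℂ]
      rw [nsmul_eq_mul]
    · intro σ
      simp only [algHomEquivSigma, Equiv.coe_fn_mk, AlgHom.domRestrict, AlgHom.comp_apply,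
        IsScalarTower.coe_toAlgHom']
      rfl
  have h2 : ∑ τ : ℚ⟮x⟯ →ₐ[ℚ] ℂ, g (τ pb.gen) = (((minpoly ℚ x).aroots ℂ).map g).sum := by
    have hmin : minpoly ℚ pb.gen = minpoly ℚ x := by
      simp only [pb, adjoin.powerBasis_gen]
      exact minpoly_gen ℚ x
    have hsep : ((minpoly ℚ pb.gen).aroots ℂ).Nodup := by
      rw [hmin]
      exact nodup_roots ((separable_map _).mpr (Algebra.IsSeparable.isSeparable ℚ x))
    refine (Fintype.sum_equiv pb.liftEquiv' (fun τ : ℚ⟮x⟯ →ₐ[ℚ] ℂ => g (τ pb.gen))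
      (fun y => g y.1) (fun τ => ?_)).trans ?_
    · rw [PowerBasis.liftEquiv'_apply_coe]
      rfl
    · rw [Finset.sum_mem_multiset _ _ g (fun y => rfl), Finset.sum_eq_multiset_sum,
        Multiset.toFinset_val]
      have h3 := Multiset.dedup_eq_self.mpr hsep
      have h4 : (minpoly ℚ pb.gen).aroots ℂ = (minpoly ℚ x).aroots ℂ := by rw [hmin]
      rw [← h4]
      exact congrArg (fun m => (Multiset.map g m).sum) h3
  rw [h1, ← mul_sum, h2]

lemma Ht_eq_mean_aux {N : ℕ} (hN : 0 < N) (K : Type) [Field K] [NumberField K]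
    [IsCyclotomicExtension {N} ℚ K] {z : ℂ} (hz : IsPrimitiveRoot z N) (f : ℤ[X]) :
    Ht (aeval z f) = mean N f := by
  classical
  have : NeZero N := ⟨hN.ne'⟩
  have hζ : IsPrimitiveRoot (IsCyclotomicExtension.zeta N ℚ K) N :=
    IsCyclotomicExtension.zeta_spec N ℚ K
  have hirr : Irreducible (cyclotomic N ℚ) := cyclotomic.irreducible_rat hN
  set ζ := IsCyclotomicExtension.zeta N ℚ K
  obtain ⟨φ, hφ⟩ : ∃ φ : K →ₐ[ℚ] ℂ, φ ζ = z := by
    refine ⟨(hζ.embeddingsEquivPrimitiveRoots ℂ hirr).symm ⟨z, (mem_prim hN).mpr hz⟩, ?_⟩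
    rw [← hζ.embeddingsEquivPrimitiveRoots_apply_coe ℂ hirr]
    simp
  have hmin : minpoly ℚ (aeval z f) = minpoly ℚ (aeval ζ f : K) := by
    rw [← hφ]
    have h4 : φ (aeval ζ f) = aeval (φ ζ) f := map_aeval_int (φ : K →+* ℂ) ζ f
    rw [← h4]
    exact minpoly.algHom_eq φ φ.injective _
  have h1 : ∀ g : ℂ → ℝ, ∑ σ : K →ₐ[ℚ] ℂ, g (σ (aeval ζ f)) =
      ∑ w ∈ primitiveRoots N ℂ, g (aeval w f) := by
    intro g
    rw [Fintype.sum_equiv (hζ.embeddingsEquivPrimitiveRoots ℂ hirr)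
      (fun σ : K →ₐ[ℚ] ℂ => g (σ (aeval ζ f))) (fun w => g (aeval (w : ℂ) f)) (fun σ => ?_)]
    · exact Finset.sum_coe_sort (primitiveRoots N ℂ) (fun w => g (aeval w f))
    · rw [hζ.embeddingsEquivPrimitiveRoots_apply_coe ℂ hirr]
      congr 1
      exact map_aeval_int (σ : K →+* ℂ) ζ f
  have h2 := sum_embeddings K (aeval ζ f) (fun x => ‖x‖ ^ 2)
  have h3 := sum_embeddings K (aeval ζ f) (fun _ => 1)
  rw [h1 (fun x => ‖x‖ ^ 2)] at h2
  rw [h1 (fun _ => 1)] at h3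
  have hcard : (((minpoly ℚ (aeval ζ f : K)).aroots ℂ).map fun _ => (1 : ℝ)).sum =
      (minpoly ℚ (aeval ζ f : K)).natDegree := by
    rw [Multiset.map_const', Multiset.sum_replicate, nsmul_eq_mul, mul_one]
    congr 1
    exact IsAlgClosed.card_aroots_eq_natDegree
  rw [hcard, sum_const, prim_card, nsmul_eq_mul, mul_one] at h3
  unfold Ht mean
  rw [hmin, h2, h3]
  have hne : (Module.finrank (IntermediateField.adjoin ℚ {(aeval ζ f : K)}) K : ℝ) ≠ 0 := by
    intro h0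
    rw [h0, zero_mul] at h3
    exact (Nat.totient_pos.mpr hN).ne' (by exact_mod_cast h3)
  rw [mul_div_mul_left _ _ hne]

/-- The Cassels height of `f(z)` is the mean of `|f|^2` over the primitive `N`-th roots. -/
lemma Ht_eq_mean {N : ℕ} (hN : 0 < N) {z : ℂ} (hz : IsPrimitiveRoot z N) (f : ℤ[X]) :
    Ht (aeval z f) = mean N f := by
  have : NeZero N := ⟨hN.ne'⟩
  have h1 : @IsCyclotomicExtension {N} ℚ (CyclotomicField N ℚ) _ _ DivisionRing.toRatAlgebra := by
    convert! CyclotomicField.isCyclotomicExtension N ℚ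
  exact Ht_eq_mean_aux hN (CyclotomicField N ℚ) hz f

lemma conj_of_prim {N : ℕ} (hN : 0 < N) {z w : ℂ} (hz : IsPrimitiveRoot z N)
    (hw : IsPrimitiveRoot w N) (f : ℤ[X]) : aeval (aeval w f) (minpoly ℚ (aeval z f)) = 0 := by
  have h1 : aeval z ((minpoly ℚ (aeval z f)).comp (f.map (Int.castRingHom ℚ))) = 0 := by
    rw [aeval_comp]
    have : aeval z (f.map (Int.castRingHom ℚ)) = aeval z f := by
      rw [aeval_def, eval₂_map, aeval_def]
      congr 1
    rw [this]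
    exact minpoly.aeval ℚ _
  have h2 := minpoly.dvd ℚ z h1
  rw [← cyclotomic_eq_minpoly_rat hz hN, cyclotomic_eq_minpoly_rat hw hN] at h2
  obtain ⟨g, hg⟩ := h2
  have h3 : aeval w ((minpoly ℚ (aeval z f)).comp (f.map (Int.castRingHom ℚ))) = 0 := by
    rw [hg, map_mul, minpoly.aeval, zero_mul]
  rw [aeval_comp] at h3
  have : aeval w (f.map (Int.castRingHom ℚ)) = aeval w f := by
    rw [aeval_def, eval₂_map, aeval_def]
    congr 1
  rwa [this] at h3

lemma exists_prim_aux {N : ℕ} (hN : 0 < N) (K : Type) [Field K] [NumberField K]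
    [IsCyclotomicExtension {N} ℚ K] {z : ℂ} (hz : IsPrimitiveRoot z N) (f : ℤ[X]) (y : ℂ)
    (hy : aeval y (minpoly ℚ (aeval z f)) = 0) : ∃ w, IsPrimitiveRoot w N ∧ y = aeval w f := by
  classical
  have : NeZero N := ⟨hN.ne'⟩
  have hζ : IsPrimitiveRoot (IsCyclotomicExtension.zeta N ℚ K) N :=
    IsCyclotomicExtension.zeta_spec N ℚ K
  have hirr : Irreducible (cyclotomic N ℚ) := cyclotomic.irreducible_rat hN
  set ζ := IsCyclotomicExtension.zeta N ℚ K
  obtain ⟨φ, hφ⟩ : ∃ φ : K →ₐ[ℚ] ℂ, φ ζ = z := by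
    refine ⟨(hζ.embeddingsEquivPrimitiveRoots ℂ hirr).symm ⟨z, (mem_prim hN).mpr hz⟩, ?_⟩
    rw [← hζ.embeddingsEquivPrimitiveRoots_apply_coe ℂ hirr]
    simp
  have hmin : minpoly ℚ (aeval z f) = minpoly ℚ (aeval ζ f : K) := by
    rw [← hφ]
    have h4 : φ (aeval ζ f) = aeval (φ ζ) f := map_aeval_int (φ : K →+* ℂ) ζ f
    rw [← h4]
    exact minpoly.algHom_eq φ φ.injective _
  rw [hmin] at hy
  have hroot : y ∈ (minpoly ℚ (aeval ζ f : K)).rootSet ℂ := by
    rw [mem_rootSet]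
    exact ⟨minpoly.ne_zero (Algebra.IsSeparable.isIntegral ℚ _), hy⟩
  rw [← NumberField.Embeddings.range_eval_eq_rootSet_minpoly K ℂ] at hroot
  obtain ⟨ψ, hψ⟩ := hroot
  refine ⟨ψ ζ, hζ.map_of_injective ψ.injective, ?_⟩
  rw [← hψ]
  exact map_aeval_int ψ ζ f

lemma exists_prim {N : ℕ} (hN : 0 < N) {z : ℂ} (hz : IsPrimitiveRoot z N) (f : ℤ[X]) (y : ℂ)
    (hy : aeval y (minpoly ℚ (aeval z f)) = 0) : ∃ w, IsPrimitiveRoot w N ∧ y = aeval w f := by
  have : NeZero N := ⟨hN.ne'⟩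
  have h1 : @IsCyclotomicExtension {N} ℚ (CyclotomicField N ℚ) _ _ DivisionRing.toRatAlgebra := by
    convert! CyclotomicField.isCyclotomicExtension N ℚ
  exact exists_prim_aux hN (CyclotomicField N ℚ) hz f y hy

/-! ### Mean one -/

lemma root_of_unity_aux {N : ℕ} (hN : 0 < N) (K : Type) [Field K] [NumberField K]
    [IsCyclotomicExtension {N} ℚ K] {z : ℂ} (hz : IsPrimitiveRoot z N) (f : ℤ[X])
    (h : ∀ w : ℂ, IsPrimitiveRoot w N → ‖aeval w f‖ = 1) :
    ∃ n : ℕ, 0 < n ∧ (aeval z f) ^ n = 1 := by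
  have : NeZero N := ⟨hN.ne'⟩
  have hζ : IsPrimitiveRoot (IsCyclotomicExtension.zeta N ℚ K) N :=
    IsCyclotomicExtension.zeta_spec N ℚ K
  have hirr : Irreducible (cyclotomic N ℚ) := cyclotomic.irreducible_rat hN
  set ζ := IsCyclotomicExtension.zeta N ℚ K
  obtain ⟨φ, hφ⟩ : ∃ φ : K →ₐ[ℚ] ℂ, φ ζ = z := by
    refine ⟨(hζ.embeddingsEquivPrimitiveRoots ℂ hirr).symm ⟨z, (mem_prim hN).mpr hz⟩, ?_⟩
    rw [← hζ.embeddingsEquivPrimitiveRoots_apply_coe ℂ hirr]
    simp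
  have hint : IsIntegral ℤ (aeval ζ f : K) := by
    have h := (hζ.isIntegral hN)
    exact .of_mem_of_fg _ (h.fg_adjoin_singleton) _ (aeval_mem_adjoin_singleton ℤ _)
  obtain ⟨n, hn, h1⟩ := NumberField.Embeddings.pow_eq_one_of_norm_eq_one K ℂ hint (fun ψ => by
    rw [map_aeval_int ψ]
    exact h _ (hζ.map_of_injective ψ.injective))
  refine ⟨n, hn, ?_⟩
  have h2 := congrArg φ h1
  rw [map_pow, map_one] at h2
  rw [← hφ, ← h2]
  congr 1
  exact (map_aeval_int (φ : K →+* ℂ) ζ f).symm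

lemma log_eq {x : ℝ} (hx : 0 < x) (h : Real.log x = x - 1) : x = 1 := by
  by_contra hne
  have := Real.log_lt_sub_one_of_pos hx hne
  linarith

/-- A cyclotomic integer of mean one is a root of unity. -/
lemma root_of_mean_one {N : ℕ} (hN : 0 < N) {z : ℂ} (hz : IsPrimitiveRoot z N) (f : ℤ[X])
    (h : mean N f = 1) : (∀ w : ℂ, IsPrimitiveRoot w N → ‖aeval w f‖ = 1) ∧
      ∃ n : ℕ, 0 < n ∧ (aeval z f) ^ n = 1 := by
  have hz0 : aeval z f ≠ 0 := by
    intro h0
    have : mean N f = 0 := by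
      unfold mean
      rw [sum_eq_zero, zero_div]
      intro w hw
      rw [aeval_conj hN f hz ((mem_prim hN).mp hw) h0]
      simp
    rw [this] at h
    exact zero_ne_one h
  have hne : ∀ w ∈ primitiveRoots N ℂ, aeval w f ≠ 0 := by
    intro w hw h0
    rw [mem_prim hN] at hw
    exact hz0 (aeval_conj hN f hw hz h0)
  obtain ⟨m, hm⟩ := exists_prod_eq_int hN f
  have hm0 : m ≠ 0 := by
    rintro rfl
    rw [Int.cast_zero] at hm
    exact (prod_ne_zero_iff.mpr hne) hm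
  have h1 : (1 : ℝ) ≤ ∏ w ∈ primitiveRoots N ℂ, ‖aeval w f‖ ^ 2 := by
    have : ∏ w ∈ primitiveRoots N ℂ, ‖aeval w f‖ ^ 2 = (m : ℝ) ^ 2 := by
      rw [prod_pow, ← norm_prod, hm, Complex.norm_intCast, sq_abs]
    rw [this]
    have : (1 : ℤ) ≤ m ^ 2 := by
      have := sq_pos_of_ne_zero hm0
      omega
    exact_mod_cast this
  have h2 : (0 : ℝ) ≤ ∑ w ∈ primitiveRoots N ℂ, Real.log (‖aeval w f‖ ^ 2) := by
    rw [← Real.log_prod (fun w hw => by have := hne w hw; positivity)]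
    exact Real.log_nonneg h1
  have hp : (0 : ℝ) < N.totient := by exact_mod_cast Nat.totient_pos.mpr hN
  have h4 : ∑ w ∈ primitiveRoots N ℂ, (‖aeval w f‖ ^ 2 - 1) = 0 := by
    rw [sum_sub_distrib, sum_const, prim_card, nsmul_eq_mul, mul_one]
    unfold mean at h
    rw [div_eq_one_iff_eq hp.ne'] at h
    linarith
  have h5 : ∀ w ∈ primitiveRoots N ℂ, 0 ≤ (‖aeval w f‖ ^ 2 - 1) - Real.log (‖aeval w f‖ ^ 2) := by
    intro w hw
    have := hne w hw
    have h6 := Real.log_le_sub_one_of_pos (show 0 < ‖aeval w f‖ ^ 2 by positivity)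
    linarith
  have h6 : ∑ w ∈ primitiveRoots N ℂ,
      ((‖aeval w f‖ ^ 2 - 1) - Real.log (‖aeval w f‖ ^ 2)) = 0 := by
    apply le_antisymm
    · rw [sum_sub_distrib, h4]
      linarith
    · exact sum_nonneg h5
  rw [sum_eq_zero_iff_of_nonneg h5] at h6
  have h7 : ∀ w : ℂ, IsPrimitiveRoot w N → ‖aeval w f‖ = 1 := by
    intro w hw
    have hw' := (mem_prim hN).mpr hw
    have h8 := h6 w hw'
    have := hne w hw'
    have h9 := log_eq (show 0 < ‖aeval w f‖ ^ 2 by positivity) (by linarith)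
    exact (pow_eq_one_iff_of_nonneg (norm_nonneg _) two_ne_zero).mp h9
  refine ⟨h7, ?_⟩
  have : NeZero N := ⟨hN.ne'⟩
  have h1 : @IsCyclotomicExtension {N} ℚ (CyclotomicField N ℚ) _ _ DivisionRing.toRatAlgebra := by
    convert! CyclotomicField.isCyclotomicExtension N ℚ
  exact root_of_unity_aux hN (CyclotomicField N ℚ) hz f h7

/-! ### Sums of primitive roots of unity -/

lemma sum_prim_eq_moebius {n : ℕ} (hn : 0 < n) :
    ∑ z ∈ primitiveRoots n ℂ, z = (ArithmeticFunction.moebius n : ℂ) := by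
  classical
  have h1 : ∀ k > 0, ∑ i ∈ k.divisors, (∑ z ∈ primitiveRoots i ℂ, z) =
      if k = 1 then (1 : ℂ) else 0 := by
    intro k hk
    have : NeZero k := ⟨hk.ne'⟩
    have hprim := Complex.isPrimitiveRoot_exp k hk.ne'
    have h2 : ∑ z ∈ nthRootsFinset k (1 : ℂ), z = if k = 1 then (1 : ℂ) else 0 := by
      split_ifs with h
      · subst h
        have h4 : nthRootsFinset 1 (1 : ℂ) = {1} := by
          ext z
          rw [mem_nthRootsFinset one_pos, pow_one, mem_singleton]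
        rw [h4, sum_singleton]
      · have h3 := hprim.geom_sum_eq_zero (by omega)
        rw [← h3]
        symm
        refine sum_bij (fun i _ => Complex.exp (2 * Real.pi * Complex.I / k) ^ i) ?_ ?_ ?_ ?_
        · intro i _
          rw [mem_nthRootsFinset hk]
          rw [← pow_mul, mul_comm i k, pow_mul, hprim.pow_eq_one, one_pow]
        · intro i hi j hj hij
          rw [mem_range] at hi hj
          exact hprim.pow_inj hi hj hij
        · intro b hb
          rw [mem_nthRootsFinset hk] at hb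
          obtain ⟨i, hi, h4⟩ := hprim.eq_pow_of_pow_eq_one hb
          exact ⟨i, mem_range.mpr hi, h4⟩
        · intro i _
          rfl
    rw [← h2, IsPrimitiveRoot.nthRoots_one_eq_biUnion_primitiveRoots]
    rw [sum_biUnion]
    intro i _ j _ hij
    exact IsPrimitiveRoot.disjoint hij
  have h2 := (ArithmeticFunction.sum_eq_iff_sum_mul_moebius_eq (R := ℂ)).mp h1 n hn
  rw [← h2]
  rw [Finset.sum_eq_single (n, 1)]
  · simp
  · rintro ⟨a, b⟩ hab hne
    rw [Nat.mem_divisorsAntidiagonal] at hab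
    rw [if_neg, mul_zero]
    rintro rfl
    apply hne
    simp only [mul_one] at hab
    rw [hab.1]
  · intro h
    exact absurd (Nat.mem_divisorsAntidiagonal.mpr ⟨by simp, hn.ne'⟩) h

end Pool.Agent.K4H3.CH
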