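import Pool.Agent.K4H3.CH.Uni

set_option autoImplicit false

open Polynomial Finset

namespace Pool.Agent.K4H3.CH

open Pool.Agent.Helper781.CycHouse

/-- The two families. -/
def Good (x : ℂ) : Prop := ∃ u : ℂ, RU u ∧
  ((∃ w, IsPrimitiveRoot w 15 ∧ x = u * (1 + w)) ∨
    (∃ a b, IsPrimitiveRoot a 7 ∧ IsPrimitiveRoot b 5 ∧ x = u * (1 + a + a * b)))

lemma Good.mul {x v : ℂ} (hx : Good x) (hv : RU v) : Good (v * x) := by
  obtain ⟨u, hu, h | h⟩ := hx
  · obtain ⟨w, hw, rfl⟩ := h
    exact ⟨v * u, hv.mul hu, Or.inl ⟨w, hw, by ring⟩⟩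
  · obtain ⟨a, b, ha, hb, rfl⟩ := h
    exact ⟨v * u, hv.mul hu, Or.inr ⟨a, b, ha, hb, by ring⟩⟩

lemma ratio_prim {p : ℕ} (hp : p.Prime) {w : ℂ} (hw : IsPrimitiveRoot w p) {i j : ℕ}
    (hi : i < p) (hj : j < p) (hij : i ≠ j) : IsPrimitiveRoot (w ^ j / w ^ i) p := by
  have hw0 : w ≠ 0 := hw.ne_zero hp.ne_zero
  refine prim_prime_of hp ?_ ?_
  · rw [div_pow, ← pow_mul, ← pow_mul, mul_comm j, mul_comm i, pow_mul, pow_mul, hw.pow_eq_one,
      one_pow, one_pow, div_one]
  · intro h
    rw [div_eq_one_iff_eq (pow_ne_zero _ hw0)] at h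
    exact hij (hw.pow_inj hj hi h).symm

/-- Four complex numbers cannot have all mutual distances one. -/
lemma no_four {A B C D : ℂ} (h1 : ‖A - D‖ ^ 2 = 1) (h2 : ‖B - D‖ ^ 2 = 1) (h3 : ‖C - D‖ ^ 2 = 1)
    (h4 : ‖A - B‖ ^ 2 = 1) (h5 : ‖A - C‖ ^ 2 = 1) (h6 : ‖B - C‖ ^ 2 = 1) : False := by
  rw [← Complex.normSq_eq_norm_sq, Complex.normSq_apply] at h1 h2 h3 h4 h5 h6
  simp only [Complex.sub_re, Complex.sub_im] at h1 h2 h3 h4 h5 h6
  obtain ⟨x1, hx1⟩ : ∃ t, A.re - D.re = t := ⟨_, rfl⟩
  obtain ⟨x2, hx2⟩ : ∃ t, A.im - D.im = t := ⟨_, rfl⟩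
  obtain ⟨y1, hy1⟩ : ∃ t, B.re - D.re = t := ⟨_, rfl⟩
  obtain ⟨y2, hy2⟩ : ∃ t, B.im - D.im = t := ⟨_, rfl⟩
  obtain ⟨z1, hz1⟩ : ∃ t, C.re - D.re = t := ⟨_, rfl⟩
  obtain ⟨z2, hz2⟩ : ∃ t, C.im - D.im = t := ⟨_, rfl⟩
  rw [hx1, hx2] at h1
  rw [hy1, hy2] at h2
  rw [hz1, hz2] at h3
  rw [show A.re - B.re = x1 - y1 by linarith, show A.im - B.im = x2 - y2 by linarith] at h4
  rw [show A.re - C.re = x1 - z1 by linarith, show A.im - C.im = x2 - z2 by linarith] at h5
  rw [show B.re - C.re = y1 - z1 by linarith, show B.im - C.im = y2 - z2 by linarith] at h6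
  have e1 : x1 * y1 + x2 * y2 = 1 / 2 := by linarith
  have e2 : x1 * z1 + x2 * z2 = 1 / 2 := by linarith
  have e3 : y1 * z1 + y2 * z2 = 1 / 2 := by linarith
  have key : (x1 * x1 + x2 * x2) * (y1 * y1 + y2 * y2) * (z1 * z1 + z2 * z2) +
      2 * (x1 * y1 + x2 * y2) * (y1 * z1 + y2 * z2) * (x1 * z1 + x2 * z2) -
      (x1 * x1 + x2 * x2) * (y1 * z1 + y2 * z2) ^ 2 -
      (y1 * y1 + y2 * y2) * (x1 * z1 + x2 * z2) ^ 2 -
      (z1 * z1 + z2 * z2) * (x1 * y1 + x2 * y2) ^ 2 = 0 := by ring
  rw [h1, h2, h3, e1, e2, e3] at key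
  norm_num at key

/-- A mean strictly between one and three halves does not occur. -/
lemma Sm.elim {x : ℝ} (h : Sm x) (h1 : 1 < x) (h2 : x < 3 / 2) : False := by
  rcases h with h | h | h <;> linarith

/-- The asymmetric case at `p = 7`. -/
lemma case7 {m : ℕ} (hm : 0 < m) {w η : ℂ} (hw : IsPrimitiveRoot w 7) (hη : IsPrimitiveRoot η m)
    (g h : ℤ[X]) {i j : ℕ} (hi : i < 7) (hj : j < 7) (hij : i ≠ j) (h1 : mean m g = 1)
    (h2 : mean m h = 3 / 2) (h3 : mean m (h - g) = 1) :
    Good (w ^ i * aeval η g + w ^ j * aeval η h) := by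
  have hα : RU (aeval η g) := (root_of_mean_one hm hη g h1).2
  have hδ : RU (aeval η (h - g)) := (root_of_mean_one hm hη (h - g) h3).2
  have h4 : Ht (aeval η g + aeval η (h - g)) = 3 / 2 := by
    rw [← map_add, add_sub_cancel, Ht_eq_mean hm hη, h2]
  have h5 := order_five hα hδ h4
  have hw0 : w ^ i ≠ 0 := pow_ne_zero _ (hw.ne_zero (by norm_num))
  have hα0 := hα.ne_zero
  refine ⟨w ^ i * aeval η g, (RU.pow (RU.of_prim (by norm_num) hw) i).mul hα, Or.inr
    ⟨w ^ j / w ^ i, aeval η (h - g) / aeval η g, ratio_prim (by norm_num) hw hi hj hij, h5, ?_⟩⟩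
  rw [map_sub]
  field_simp
  ring

/-- The case of two exceptional residues. -/
lemma case_two {p m : ℕ} (hp : p.Prime) (hp5 : 5 ≤ p) (hm : 0 < m) {w η : ℂ}
    (hw : IsPrimitiveRoot w p) (hη : IsPrimitiveRoot η m)
    (hsq : ∀ q, q.Prime → ¬ q * q ∣ m) (hbig : ∀ q, q.Prime → q ∣ m → q < p)
    (g h : ℤ[X]) {i j : ℕ} (hi : i < p) (hj : j < p) (hij : i ≠ j)
    (hg : aeval η g ≠ 0) (hh : aeval η h ≠ 0)
    (hs : ((p : ℝ) - 1) * (9 / 4) = (p - 2) * (mean m g + mean m h) + mean m (g - h)) :
    Good (w ^ i * aeval η g + w ^ j * aeval η h) := by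
  have hp5' : (5 : ℝ) ≤ p := by exact_mod_cast hp5
  have hg1 := one_le_mean hm g hη hg
  have hh1 := one_le_mean hm h hη hh
  have hsg := small m hm g
  have hsh := small m hm h
  have hsd := small m hm (g - h)
  have hd0 := mean_nonneg m (g - h)
  -- if the difference vanishes the two means agree
  have hzero : mean m (g - h) = 0 → mean m g = mean m h := by
    intro h0
    have h1 := eq_zero_of_mean_lt hm (g - h) hη (by rw [h0]; norm_num)
    rw [map_sub, sub_eq_zero] at h1
    exact mean_congr hm g h hη h1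
  have hle : mean m g = 1 → mean m h = 1 → mean m (g - h) ≤ 4 ∧ mean m (g - h) ≠ 7 / 2 := by
    intro h1 h2
    rw [← Ht_eq_mean hm hη, map_sub]
    exact Ht_sub_le (root_of_mean_one hm hη g h1).2 (root_of_mean_one hm hη h h2).2
  rcases lt_or_ge p 11 with hp11 | hp11
  · have hp' : p = 5 ∨ p = 7 := by
      interval_cases p
      · left; rfl
      · exact absurd hp (by norm_num)
      · right; rfl
      · exact absurd hp (by norm_num)
      · exact absurd hp (by norm_num)
      · exact absurd hp (by norm_num)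
    rcases hp' with rfl | rfl
    · -- p = 5
      have hm6 : m ∣ 6 := dvd_six_of hsq hbig
      obtain ⟨k1, hk1, hn1⟩ := mean_six hm6 g hη
      obtain ⟨k2, hk2, hn2⟩ := mean_six hm6 h hη
      obtain ⟨k3, hk3, hn3⟩ := mean_six hm6 (g - h) hη
      rw [hk1, hk2, hk3] at hs
      rw [hk1] at hg1
      rw [hk2] at hh1
      rw [hk3] at hd0
      have e1 : (9 : ℤ) = 3 * (k1 + k2) + k3 := by
        have : (9 : ℝ) = 3 * (k1 + k2) + k3 := by push_cast at hs; linarith
        exact_mod_cast this
      have e2 : 1 ≤ k1 := by exact_mod_cast hg1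
      have e3 : 1 ≤ k2 := by exact_mod_cast hh1
      have e4 : 0 ≤ k3 := by exact_mod_cast hd0
      have e5 : k3 ≠ 0 := by
        intro h0
        have h1 := hzero (by rw [hk3, h0]; simp)
        rw [hk1, hk2] at h1
        have h2 : k1 = k2 := by exact_mod_cast h1
        omega
      have e6 : k1 = 1 ∧ k2 = 1 ∧ k3 = 3 := by omega
      obtain ⟨rfl, rfl, rfl⟩ := e6
      push_cast at hk1 hk2 hk3 hn1 hn2 hn3
      have hα : RU (aeval η g) := (root_of_mean_one hm hη g hk1).2
      have hβ : RU (aeval η h) := (root_of_mean_one hm hη h hk2).2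
      have h3 := order_three hα.norm hβ.norm (by rw [← map_sub]; exact hn3)
      have h5 := ratio_prim hp hw hi hj hij
      have hw0 : w ^ i ≠ 0 := pow_ne_zero _ (hw.ne_zero (by norm_num))
      have hα0 := hα.ne_zero
      refine ⟨w ^ i * aeval η g, (RU.pow (RU.of_prim (by norm_num) hw) i).mul hα, Or.inl
        ⟨(w ^ j / w ^ i) * (aeval η h / aeval η g), ?_, ?_⟩⟩
      · rw [IsPrimitiveRoot.iff_orderOf]
        rw [(Commute.all _ _).orderOf_mul_eq_mul_orderOf_of_coprime (by
          rw [← h5.eq_orderOf, ← h3.eq_orderOf]; norm_num), ← h5.eq_orderOf, ← h3.eq_orderOf]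
      · field_simp
    · -- p = 7
      push_cast at hs
      rcases hsg with h0 | h1 | h1
      · linarith
      · rcases hsh with h0 | h2 | h2
        · linarith
        · exfalso
          apply (hle h1 h2).2
          rw [h1, h2] at hs
          linarith
        · have h3 : mean m (g - h) = 1 := by
            rcases hsd with h3 | h3 | h3
            · have := hzero h3
              linarith
            · exact h3
            · linarith
          have h4 : mean m h = 3 / 2 := by linarith
          exact case7 hm hw hη g h hi hj hij h1 h4 (by rw [mean_sub_comm]; exact h3)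
      · rcases hsh with h0 | h2 | h2
        · linarith
        · have h3 : mean m (g - h) = 1 := by
            rcases hsd with h3 | h3 | h3
            · have := hzero h3
              linarith
            · exact h3
            · linarith
          have h4 : mean m g = 3 / 2 := by linarith
          rw [add_comm]
          exact case7 hm hw hη h g hj hi hij.symm h2 h4 h3
        · linarith
  · exfalso
    have hp11' : (11 : ℝ) ≤ p := by exact_mod_cast hp11
    rcases hsg with h0 | h1 | h1
    · linarith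
    · rcases hsh with h0 | h2 | h2
      · linarith
      · have := (hle h1 h2).1
        rw [h1, h2] at hs
        linarith
      · have h5 : mean m (g - h) = 0 := by nlinarith
        have := hzero h5
        linarith
    · rcases hsh with h0 | h2 | h2
      · linarith
      · have h5 : mean m (g - h) = 0 := by nlinarith
        have := hzero h5
        linarith
      · nlinarith

/-- The case of three exceptional residues does not occur. -/
lemma case_three {p m : ℕ} (hp : p.Prime) (hp5 : 5 ≤ p) (hm : 0 < m) {η : ℂ}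
    (hη : IsPrimitiveRoot η m)
    (hsq : ∀ q, q.Prime → ¬ q * q ∣ m) (hbig : ∀ q, q.Prime → q ∣ m → q < p)
    (g h k : ℤ[X]) (hg : aeval η g ≠ 0) (hh : aeval η h ≠ 0) (hk : aeval η k ≠ 0)
    (hs : ((p : ℝ) - 1) * (9 / 4) = (p - 3) * (mean m g + mean m h + mean m k) +
      (mean m (g - h) + mean m (g - k) + mean m (h - k))) : False := by
  have hp5' : (5 : ℝ) ≤ p := by exact_mod_cast hp5
  have hg1 := one_le_mean hm g hη hg
  have hh1 := one_le_mean hm h hη hh
  have hk1 := one_le_mean hm k hη hk
  have n1 := mean_nonneg m (g - h)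
  have n2 := mean_nonneg m (g - k)
  have n3 := mean_nonneg m (h - k)
  have hp' : p = 5 ∨ p = 7 := by
    have hle : (p : ℝ) < 11 := by nlinarith
    have hle' : p < 11 := by exact_mod_cast hle
    interval_cases p
    · left; rfl
    · exact absurd hp (by norm_num)
    · right; rfl
    · exact absurd hp (by norm_num)
    · exact absurd hp (by norm_num)
    · exact absurd hp (by norm_num)
  have z1 : aeval η (g - h) = 0 → mean m (g - k) = mean m (h - k) ∧ mean m (g - h) = 0 := by
    intro h0
    refine ⟨mean_congr hm _ _ hη ?_, mean_eq_zero hm _ hη h0⟩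
    rw [map_sub, sub_eq_zero] at h0
    rw [map_sub, map_sub, h0]
  have z2 : aeval η (g - k) = 0 → mean m (g - h) = mean m (h - k) ∧ mean m (g - k) = 0 := by
    intro h0
    refine ⟨?_, mean_eq_zero hm _ hη h0⟩
    rw [mean_sub_comm m h k]
    refine mean_congr hm _ _ hη ?_
    rw [map_sub, sub_eq_zero] at h0
    rw [map_sub, map_sub, h0]
  have z3 : aeval η (h - k) = 0 → mean m (g - h) = mean m (g - k) ∧ mean m (h - k) = 0 := by
    intro h0
    refine ⟨mean_congr hm _ _ hη ?_, mean_eq_zero hm _ hη h0⟩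
    rw [map_sub, sub_eq_zero] at h0
    rw [map_sub, map_sub, h0]
  rcases hp' with rfl | rfl
  · have hm6 : m ∣ 6 := dvd_six_of hsq hbig
    obtain ⟨k1, e1, f1⟩ := mean_six hm6 g hη
    obtain ⟨k2, e2, f2⟩ := mean_six hm6 h hη
    obtain ⟨k3, e3, f3⟩ := mean_six hm6 k hη
    obtain ⟨k4, e4, f4⟩ := mean_six hm6 (g - h) hη
    obtain ⟨k5, e5, f5⟩ := mean_six hm6 (g - k) hη
    obtain ⟨k6, e6, f6⟩ := mean_six hm6 (h - k) hη
    rw [e1] at hg1
    rw [e2] at hh1
    rw [e3] at hk1
    have i1 : 1 ≤ k1 := by exact_mod_cast hg1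
    have i2 : 1 ≤ k2 := by exact_mod_cast hh1
    have i3 : 1 ≤ k3 := by exact_mod_cast hk1
    have hZ : (9 : ℤ) = 2 * (k1 + k2 + k3) + (k4 + k5 + k6) := by
      rw [e1, e2, e3, e4, e5, e6] at hs
      have : (9 : ℝ) = 2 * (k1 + k2 + k3) + (k4 + k5 + k6) := by push_cast at hs; linarith
      exact_mod_cast this
    by_cases c1 : aeval η (g - h) = 0
    · obtain ⟨h1, h2⟩ := z1 c1
      rw [e5, e6] at h1
      rw [e4] at h2
      have h1' : k5 = k6 := by exact_mod_cast h1
      have h2' : k4 = 0 := by exact_mod_cast h2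
      omega
    by_cases c2 : aeval η (g - k) = 0
    · obtain ⟨h1, h2⟩ := z2 c2
      rw [e4, e6] at h1
      rw [e5] at h2
      have h1' : k4 = k6 := by exact_mod_cast h1
      have h2' : k5 = 0 := by exact_mod_cast h2
      omega
    by_cases c3 : aeval η (h - k) = 0
    · obtain ⟨h1, h2⟩ := z3 c3
      rw [e4, e5] at h1
      rw [e6] at h2
      have h1' : k4 = k5 := by exact_mod_cast h1
      have h2' : k6 = 0 := by exact_mod_cast h2
      omega
    have o1 := one_le_mean hm _ hη c1
    have o2 := one_le_mean hm _ hη c2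
    have o3 := one_le_mean hm _ hη c3
    rw [e4] at o1
    rw [e5] at o2
    rw [e6] at o3
    have i4 : 1 ≤ k4 := by exact_mod_cast o1
    have i5 : 1 ≤ k5 := by exact_mod_cast o2
    have i6 : 1 ≤ k6 := by exact_mod_cast o3
    have all : k1 = 1 ∧ k2 = 1 ∧ k3 = 1 ∧ k4 = 1 ∧ k5 = 1 ∧ k6 = 1 := by omega
    obtain ⟨rfl, rfl, rfl, rfl, rfl, rfl⟩ := all
    push_cast at f1 f2 f3 f4 f5 f6
    refine no_four (A := aeval η g) (B := aeval η h) (C := aeval η k) (D := 0) ?_ ?_ ?_ ?_ ?_ ?_
    · rw [sub_zero]; exact f1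
    · rw [sub_zero]; exact f2
    · rw [sub_zero]; exact f3
    · rw [← map_sub]; exact f4
    · rw [← map_sub]; exact f5
    · rw [← map_sub]; exact f6
  · push_cast at hs
    have s1 := small m hm (g - h)
    have s2 := small m hm (g - k)
    have s3 := small m hm (h - k)
    have hle : mean m (g - h) + mean m (g - k) + mean m (h - k) ≤ 3 / 2 := by linarith
    have c1 : aeval η (g - h) = 0 := by
      by_contra c1
      have o1 := one_le_mean hm _ hη c1
      have c2 : aeval η (g - k) = 0 := eq_zero_of_mean_lt hm _ hη (by linarith)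
      have c3 : aeval η (h - k) = 0 := eq_zero_of_mean_lt hm _ hη (by linarith)
      apply c1
      have : (g - h : ℤ[X]) = (g - k) - (h - k) := by ring
      rw [this, map_sub, c2, c3, sub_zero]
    have c2 : aeval η (g - k) = 0 := by
      obtain ⟨h1, h2⟩ := z1 c1
      exact eq_zero_of_mean_lt hm _ hη (by linarith)
    obtain ⟨h1, h2⟩ := z1 c1
    have h3 := mean_eq_zero hm _ hη c2
    rw [map_sub, sub_eq_zero] at c1 c2
    have e1 : mean m g = mean m h := mean_congr hm _ _ hη c1
    have e2 : mean m g = mean m k := mean_congr hm _ _ hη c2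
    exact (small m hm g).elim (by linarith) (by linarith)

/-- Classification of the cyclotomic integers of mean `9/4`. -/
theorem main (N : ℕ) : 0 < N → ∀ (f : ℤ[X]) (z : ℂ), IsPrimitiveRoot z N → mean N f = 9 / 4 →
    Good (aeval z f) := by
  induction N using Nat.strong_induction_on with
  | _ N ih =>
    intro hN f z hz hf
    rcases cases_level hN with ⟨p, m, hp, hm, hpm, rfl, hlt⟩ | h6 |
      ⟨p, m, hp, hp5, hm, hcop, rfl, hlt, hsq, hbig⟩
    · have hzp : IsPrimitiveRoot (z ^ p) m := hz.pow (Nat.mul_pos hp.pos hm) rfl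
      rcases dvd_data hp hm hpm f hz with ⟨_, h⟩ | ⟨i, g, h1, h⟩ | ⟨g, h', hg, hh, h⟩ | h
      · rw [h] at hf; norm_num at hf
      · rw [h1]
        exact (ih m hlt hm g (z ^ p) hzp (by rw [← h, hf])).mul (RU.pow (RU.of_prim hN hz) i)
      · exfalso
        have h1 := one_le_mean hm g hzp hg
        have h2 := one_le_mean hm h' hzp hh
        rw [hf] at h
        rcases small m hm g with h3 | h3 | h3
        · linarith
        · rcases small m hm h' with h4 | h4 | h4 <;> linarith
        · linarith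
      · exfalso
        linarith
    · exfalso
      obtain ⟨k, hk, _⟩ := mean_six h6 f hz
      rw [hf] at hk
      have : (9 : ℤ) = 4 * k := by
        have : (9 : ℝ) = 4 * k := by linarith
        exact_mod_cast this
      omega
    · obtain ⟨w, η, hw, hη, rfl⟩ := split_root hp.pos hm hcop hz
      obtain ⟨a, i0, T, hTp, hne, h1, h2, h3⟩ := cop_data hp hm hcop f hw hη
      have hp5' : (5 : ℝ) ≤ p := by exact_mod_cast hp5
      rw [hf] at h1 h2
      rw [h3]
      have hne' : ∀ j ∈ T, aeval η (a j - a i0) ≠ 0 := by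
        intro j hj
        rw [map_sub]; exact sub_ne_zero.mpr (hne j hj)
      have hR : (T.card : ℝ) ≤ ∑ j ∈ T, mean m (a j - a i0) := by
        have := card_nsmul_le_sum T (fun j => mean m (a j - a i0)) 1
          (fun j hj => one_le_mean hm _ hη (hne' j hj))
        simpa using this
      have hTT : 0 ≤ ∑ i ∈ T, ∑ j ∈ T, mean m (a i - a j) :=
        sum_nonneg fun i _ => sum_nonneg fun j _ => mean_nonneg _ _
      rcases Nat.lt_or_ge T.card 5 with hT | hT
      · interval_cases h : T.card
        · exfalso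
          have : T = ∅ := card_eq_zero.mp h
          rw [this] at h1
          simp only [sum_empty, mul_zero, add_zero] at h1
          linarith
        · obtain ⟨i, hi⟩ := card_eq_one.mp h
          rw [hi] at h1 ⊢
          simp only [sum_singleton, sub_self, mean_zero, mul_zero, add_zero, Nat.cast_one] at h1 ⊢
          have h4 : 9 / 4 = mean m (a i - a i0) := mul_left_cancel₀ (by linarith) h1
          exact (ih m hlt hm _ η hη h4.symm).mul (RU.pow (RU.of_prim hp.pos hw) i)
        · obtain ⟨i, j, hij, hTij⟩ := card_eq_two.mp h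
          have hi : i ∈ T := by rw [hTij]; simp
          have hj : j ∈ T := by rw [hTij]; simp
          have h4 : aeval η (a i - a i0) ≠ 0 := hne' i hi
          have h5 : aeval η (a j - a i0) ≠ 0 := hne' j hj
          have hi' : i < p := mem_range.mp (hTp hi)
          have hj' : j < p := mem_range.mp (hTp hj)
          rw [hTij] at h1 ⊢
          rw [sum_pair hij, sum_pair hij, sum_pair hij, sum_pair hij] at h1
          rw [sum_pair hij]
          refine case_two hp hp5 hm hw hη hsq hbig (a i - a i0) (a j - a i0) hi' hj' hij h4 h5 ?_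
          rw [sub_self, sub_self, mean_zero, mean_sub_comm m (a j) (a i)] at h1
          rw [sub_sub_sub_cancel_right]
          push_cast at h1
          linarith
        · exfalso
          obtain ⟨i, j, l, hij, hil, hjl, hTij⟩ := card_eq_three.mp h
          have hi : i ∈ T := by rw [hTij]; simp
          have hj : j ∈ T := by rw [hTij]; simp
          have hl : l ∈ T := by rw [hTij]; simp
          refine case_three hp hp5 hm hη hsq hbig (a i - a i0) (a j - a i0) (a l - a i0)
            (hne' i hi) (hne' j hj) (hne' l hl) ?_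
          have hs3 : ∀ F : ℕ → ℝ, ∑ x ∈ T, F x = F i + F j + F l := by
            intro F
            rw [hTij, sum_insert (by simp [hij, hil]), sum_pair hjl]
            ring
          rw [hs3, hs3, hs3, hs3, hs3] at h1
          simp only [sub_self, mean_zero, mean_sub_comm m (a j) (a i),
            mean_sub_comm m (a l) (a i), mean_sub_comm m (a l) (a j)] at h1
          rw [sub_sub_sub_cancel_right, sub_sub_sub_cancel_right, sub_sub_sub_cancel_right]
          push_cast at h1
          linarith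
        · exfalso
          push_cast at h1 h2 hR
          nlinarith
      · exfalso
        have : (5 : ℝ) ≤ T.card := by exact_mod_cast hT
        nlinarith

end Pool.Agent.K4H3.CH
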