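import Pool.Agent.K4H3.CH.Main

set_option autoImplicit false

open Polynomial Finset

namespace Pool.Agent.K4H3.CH

open Pool.Agent.Helper781.CycHouse

/-- polynomial of the second representative: at `z = w * η` with `w ^ 7 = 1`, `η ^ 5 = 1` its
value is `1 + w + w * η`. -/
noncomputable def F2 : ℤ[X] := 1 + X ^ 15 + X ^ 36

lemma F2_val {w η : ℂ} (hw : w ^ 7 = 1) (hη : η ^ 5 = 1) :
    aeval (w * η) F2 = 1 + w + w * η := by
  unfold F2
  simp only [map_add, map_one, map_pow, aeval_X]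
  have e1 : (w * η) ^ 15 = w := by
    rw [mul_pow, show (15 : ℕ) = 7 * 2 + 1 by norm_num, pow_succ w, pow_mul, hw,
      show (7 * 2 + 1 : ℕ) = 5 * 3 by norm_num, pow_mul, hη]
    ring
  have e2 : (w * η) ^ 36 = w * η := by
    rw [mul_pow, show (36 : ℕ) = 7 * 5 + 1 by norm_num, pow_succ w, pow_mul, hw,
      show (7 * 5 + 1 : ℕ) = 5 * 7 + 1 by norm_num, pow_succ η, pow_mul η, hη]
    ring
  rw [e1, e2]

lemma prim_mul {a b : ℕ} (hab : a.Coprime b) {x y : ℂ} (hx : IsPrimitiveRoot x a)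
    (hy : IsPrimitiveRoot y b) : IsPrimitiveRoot (x * y) (a * b) := by
  rw [IsPrimitiveRoot.iff_orderOf, (Commute.all _ _).orderOf_mul_eq_mul_orderOf_of_coprime (by
    rw [← hx.eq_orderOf, ← hy.eq_orderOf]; exact hab), ← hx.eq_orderOf, ← hy.eq_orderOf]

lemma normSq_one_add {w : ℂ} (hw : ‖w‖ = 1) : ‖1 + w‖ ^ 2 = 2 + 2 * w.re := by
  have h : ‖w‖ ^ 2 = w.re * w.re + w.im * w.im := by
    rw [← Complex.normSq_eq_norm_sq, Complex.normSq_apply]
  rw [hw] at h
  rw [← Complex.normSq_eq_norm_sq, Complex.normSq_apply]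
  simp only [Complex.add_re, Complex.one_re, Complex.add_im, Complex.one_im]
  linarith [h]

lemma moebius_fifteen : ArithmeticFunction.moebius 15 = 1 := by
  have h := ArithmeticFunction.isMultiplicative_moebius.map_mul_of_coprime
    (show Nat.Coprime 3 5 by norm_num)
  rw [show (15 : ℕ) = 3 * 5 by norm_num, h,
    ArithmeticFunction.moebius_apply_prime (by norm_num : Nat.Prime 3),
    ArithmeticFunction.moebius_apply_prime (by norm_num : Nat.Prime 5)]
  norm_num

/-- The height of `1 + w`, `w` of order fifteen. -/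
lemma mean_one : mean 15 (1 + X) = 9 / 4 := by
  unfold mean
  have h2 : ∑ z ∈ primitiveRoots 15 ℂ, ‖aeval z (1 + X : ℤ[X])‖ ^ 2 =
      ∑ z ∈ primitiveRoots 15 ℂ, (2 + 2 * z.re) := by
    refine sum_congr rfl fun z hz => ?_
    have := ((mem_prim (by norm_num)).mp hz).norm'_eq_one (by norm_num)
    rw [← normSq_one_add this]
    simp
  have h3 : ∑ z ∈ primitiveRoots 15 ℂ, z.re = 1 := by
    rw [← Complex.re_sum, sum_prim_eq_moebius (by norm_num), moebius_fifteen]
    simp
  have ht : Nat.totient 15 = 8 := by decide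
  rw [h2, sum_add_distrib, sum_const, prim_card, ← mul_sum, h3, nsmul_eq_mul, ht]
  norm_num

lemma normSq_three {w η : ℂ} (hw : ‖w‖ = 1) (hη : ‖η‖ = 1) :
    ‖1 + w + w * η‖ ^ 2 = 3 + 2 * w.re + 2 * (w * η).re + 2 * η.re := by
  have h : w.re * w.re + w.im * w.im = 1 := by
    have : ‖w‖ ^ 2 = w.re * w.re + w.im * w.im := by
      rw [← Complex.normSq_eq_norm_sq, Complex.normSq_apply]
    rw [← this, hw]; norm_num
  have h' : η.re * η.re + η.im * η.im = 1 := by
    have : ‖η‖ ^ 2 = η.re * η.re + η.im * η.im := by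
      rw [← Complex.normSq_eq_norm_sq, Complex.normSq_apply]
    rw [← this, hη]; norm_num
  rw [← Complex.normSq_eq_norm_sq, Complex.normSq_apply]
  simp only [Complex.add_re, Complex.one_re, Complex.add_im, Complex.one_im, Complex.mul_re,
    Complex.mul_im]
  linear_combination (1 + 2 * η.re + η.re * η.re + η.im * η.im) * h + h'

/-- The height of the second representative. -/
lemma mean_two : mean 35 F2 = 9 / 4 := by
  unfold mean
  have h7 : ∀ w ∈ primitiveRoots 7 ℂ, IsPrimitiveRoot w 7 := fun w hw =>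
    (mem_prim (by norm_num)).mp hw
  have h5 : ∀ w ∈ primitiveRoots 5 ℂ, IsPrimitiveRoot w 5 := fun w hw =>
    (mem_prim (by norm_num)).mp hw
  have t7 : Nat.totient 7 = 6 := by decide
  have t5 : Nat.totient 5 = 4 := by decide
  have t35 : Nat.totient 35 = 24 := by decide
  have s7 : ∑ w ∈ primitiveRoots 7 ℂ, w = -1 := by
    rw [sum_prim_eq_moebius (by norm_num),
      ArithmeticFunction.moebius_apply_prime (by norm_num : Nat.Prime 7)]
    norm_num
  have s5 : ∑ w ∈ primitiveRoots 5 ℂ, w = -1 := by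
    rw [sum_prim_eq_moebius (by norm_num),
      ArithmeticFunction.moebius_apply_prime (by norm_num : Nat.Prime 5)]
    norm_num
  have r7 : ∑ w ∈ primitiveRoots 7 ℂ, w.re = -1 := by
    rw [← Complex.re_sum, s7]; simp
  have r5 : ∑ w ∈ primitiveRoots 5 ℂ, w.re = -1 := by
    rw [← Complex.re_sum, s5]; simp
  have h1 := sum_prim_coprime (p := 7) (m := 5) (by norm_num) (by norm_num) (by norm_num)
    (fun z => ‖aeval z F2‖ ^ 2)
  rw [show (7 * 5 : ℕ) = 35 by norm_num] at h1
  rw [h1]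
  have h2 : ∑ η ∈ primitiveRoots 5 ℂ, ∑ w ∈ primitiveRoots 7 ℂ, ‖aeval (w * η) F2‖ ^ 2 =
      ∑ η ∈ primitiveRoots 5 ℂ, ∑ w ∈ primitiveRoots 7 ℂ,
        (3 + 2 * w.re + 2 * (w * η).re + 2 * η.re) := by
    refine sum_congr rfl fun η hη => sum_congr rfl fun w hw => ?_
    rw [F2_val (h7 w hw).pow_eq_one (h5 η hη).pow_eq_one]
    exact normSq_three ((h7 w hw).norm'_eq_one (by norm_num))
      ((h5 η hη).norm'_eq_one (by norm_num))
  have h3 : ∀ η : ℂ, ∑ w ∈ primitiveRoots 7 ℂ, (3 + 2 * w.re + 2 * (w * η).re + 2 * η.re) =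
      16 + 10 * η.re := by
    intro η
    have h4 : ∑ w ∈ primitiveRoots 7 ℂ, (w * η).re = -η.re := by
      rw [← Complex.re_sum, ← sum_mul, s7]
      simp
    rw [sum_add_distrib, sum_add_distrib, sum_add_distrib, ← mul_sum, ← mul_sum, r7, h4,
      sum_const, sum_const, prim_card, t7, nsmul_eq_mul, nsmul_eq_mul]
    push_cast
    ring
  rw [h2, sum_congr rfl fun η _ => h3 η, sum_add_distrib, ← mul_sum, r5, sum_const, prim_card,
    t5, t35, nsmul_eq_mul]
  norm_num

lemma exists_big : ∃ z : ℂ, IsPrimitiveRoot z 35 ∧ 2 < ‖aeval z F2‖ := by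
  have hw := (Complex.isPrimitiveRoot_exp 7 (by norm_num)).inv
  have hη := Complex.isPrimitiveRoot_exp 5 (by norm_num)
  set w := (Complex.exp (2 * Real.pi * Complex.I / (7 : ℕ)))⁻¹ with hwdef
  set η := Complex.exp (2 * Real.pi * Complex.I / (5 : ℕ)) with hηdef
  refine ⟨w * η, prim_mul (by norm_num) hw hη, ?_⟩
  rw [F2_val hw.pow_eq_one hη.pow_eq_one]
  have e1 : w = Complex.exp (((-(2 * Real.pi / 7) : ℝ) : ℂ) * Complex.I) := by
    rw [hwdef, ← Complex.exp_neg]
    congr 1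
    push_cast
    ring
  have e2 : w * η = Complex.exp (((4 * Real.pi / 35 : ℝ) : ℂ) * Complex.I) := by
    rw [e1, hηdef, ← Complex.exp_add]
    congr 1
    push_cast
    ring
  have r1 : w.re = Real.cos (2 * Real.pi / 7) := by
    rw [e1, Complex.exp_ofReal_mul_I_re, Real.cos_neg]
  have r2 : (w * η).re = Real.cos (4 * Real.pi / 35) := by
    rw [e2, Complex.exp_ofReal_mul_I_re]
  have hpi := Real.pi_pos
  have c1 : 1 / 2 < Real.cos (2 * Real.pi / 7) := by
    rw [← Real.cos_pi_div_three]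
    exact Real.cos_lt_cos_of_nonneg_of_le_pi (by positivity) (by linarith) (by linarith)
  have c2 : 1 / 2 < Real.cos (4 * Real.pi / 35) := by
    rw [← Real.cos_pi_div_three]
    exact Real.cos_lt_cos_of_nonneg_of_le_pi (by positivity) (by linarith) (by linarith)
  have h1 := Complex.re_le_norm (1 + w + w * η)
  rw [Complex.add_re, Complex.add_re, r1, r2, Complex.one_re] at h1
  linarith

/-- The two classes are different. -/
lemma classes_ne {z u w : ℂ} (hz : IsPrimitiveRoot z 35) (hu : RU u) (hw : RU w)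
    (h : aeval z F2 = u * (1 + w)) : False := by
  obtain ⟨z0, hz0, hbig⟩ := exists_big
  obtain ⟨k, hk, huk⟩ := hu
  obtain ⟨l, hl, hwl⟩ := hw
  set L := 35 * (k * l) with hL
  have hL0 : 0 < L := Nat.mul_pos (by norm_num) (Nat.mul_pos hk hl)
  have : NeZero L := ⟨hL0.ne'⟩
  have hθ := Complex.isPrimitiveRoot_exp L hL0.ne'
  set θ := Complex.exp (2 * Real.pi * Complex.I / L)
  have hzL : z ^ L = 1 := by rw [hL, pow_mul, hz.pow_eq_one, one_pow]
  have huL : u ^ L = 1 := by
    rw [hL, show 35 * (k * l) = k * (35 * l) by ring, pow_mul, huk, one_pow]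
  have hwL : w ^ L = 1 := by
    rw [hL, show 35 * (k * l) = l * (35 * k) by ring, pow_mul, hwl, one_pow]
  obtain ⟨a, _, ha⟩ := hθ.eq_pow_of_pow_eq_one hzL
  obtain ⟨b, _, hb⟩ := hθ.eq_pow_of_pow_eq_one huL
  obtain ⟨c, _, hc⟩ := hθ.eq_pow_of_pow_eq_one hwL
  have h1 : aeval θ (F2.comp (X ^ a) - X ^ b * (1 + X ^ c) : ℤ[X]) = 0 := by
    rw [map_sub, aeval_comp]
    simp only [map_mul, map_add, map_one, map_pow, aeval_X]
    rw [ha, hb, hc, h, sub_self]
  have h2 : aeval z0 (minpoly ℚ (aeval θ (X ^ a : ℤ[X]))) = 0 := by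
    have h3 : aeval θ (X ^ a : ℤ[X]) = aeval z (X : ℤ[X]) := by simp [ha]
    have h4 := conj_of_prim (by norm_num) hz hz0 (X : ℤ[X])
    rw [h3]
    simpa using h4
  obtain ⟨θ', hθ', h3⟩ := exists_prim hL0 hθ (X ^ a) z0 h2
  have h4 := aeval_conj hL0 _ hθ hθ' h1
  rw [map_sub, aeval_comp, sub_eq_zero] at h4
  rw [← h3] at h4
  simp only [map_mul, map_add, map_one, map_pow, aeval_X] at h4
  have hn : ‖θ'‖ = 1 := hθ'.norm'_eq_one hL0.ne'
  rw [h4, norm_mul, norm_pow, hn, one_pow, one_mul] at hbig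
  have h5 := norm_add_le (1 : ℂ) (θ' ^ c)
  rw [norm_one, norm_pow, hn, one_pow] at h5
  linarith

end Pool.Agent.K4H3.CH
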