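import Pool.Agent.K4H3.CH.Cop

set_option autoImplicit false

open Polynomial Finset

namespace Pool.Agent.K4H3.CH

open Pool.Agent.Helper781.CycHouse

lemma two_term (t : ℤ) (f : ℤ[X]) : ∃ a b : ℤ, ∀ w : ℂ, w ^ 2 = t * w - 1 →
    aeval w f = a + b * w := by
  induction f using Polynomial.induction_on' with
  | add f g hf hg =>
    obtain ⟨a, b, h1⟩ := hf
    obtain ⟨c, d, h2⟩ := hg
    refine ⟨a + c, b + d, fun w hw => ?_⟩
    rw [map_add, h1 w hw, h2 w hw]
    push_cast
    ring
  | monomial n c =>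
    have h : ∃ a b : ℤ, ∀ w : ℂ, w ^ 2 = t * w - 1 → w ^ n = a + b * w := by
      induction n with
      | zero => exact ⟨1, 0, fun w _ => by simp⟩
      | succ n ih =>
        obtain ⟨a, b, h⟩ := ih
        refine ⟨-b, a + b * t, fun w hw => ?_⟩
        rw [pow_succ, h w hw]
        push_cast
        linear_combination (b : ℂ) * hw
    obtain ⟨a, b, h⟩ := h
    refine ⟨c * a, c * b, fun w hw => ?_⟩
    rw [aeval_monomial, h w hw]
    push_cast
    simp only [algebraMap_int_eq, eq_intCast]
    ring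

lemma quad_of_six {N : ℕ} (hN : N ∣ 6) : ∃ t : ℤ, ∀ w : ℂ, IsPrimitiveRoot w N →
    w ^ 2 = t * w - 1 := by
  have h6 : N ∈ Nat.divisors 6 := Nat.mem_divisors.mpr ⟨hN, by norm_num⟩
  have hd : Nat.divisors 6 = {1, 2, 3, 6} := by decide
  rw [hd] at h6
  simp only [mem_insert, mem_singleton] at h6
  rcases h6 with rfl | rfl | rfl | rfl
  · refine ⟨2, fun w hw => ?_⟩
    rw [IsPrimitiveRoot.one_right_iff] at hw
    rw [hw]; norm_num
  · refine ⟨-2, fun w hw => ?_⟩
    have h1 := hw.pow_eq_one
    have h2 : w ≠ 1 := hw.ne_one (by norm_num)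
    have h3 : (w - 1) * (w + 1) = 0 := by linear_combination h1
    rcases mul_eq_zero.mp h3 with h | h
    · exact absurd (sub_eq_zero.mp h) h2
    · have : w = -1 := by linear_combination h
      rw [this]; norm_num
  · refine ⟨-1, fun w hw => ?_⟩
    have h1 := hw.pow_eq_one
    have h2 : w ≠ 1 := hw.ne_one (by norm_num)
    have h3 : (w - 1) * (w ^ 2 + w + 1) = 0 := by linear_combination h1
    rcases mul_eq_zero.mp h3 with h | h
    · exact absurd (sub_eq_zero.mp h) h2
    · push_cast
      linear_combination h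
  · refine ⟨1, fun w hw => ?_⟩
    have h1 := hw.pow_eq_one
    have h2 : w ^ 2 ≠ 1 := hw.pow_ne_one_of_pos_of_lt (by norm_num) (by norm_num)
    have h4 : w ^ 3 ≠ 1 := hw.pow_ne_one_of_pos_of_lt (by norm_num) (by norm_num)
    have h3 : (w ^ 3 - 1) * (w ^ 3 + 1) = 0 := by linear_combination h1
    rcases mul_eq_zero.mp h3 with h | h
    · exact absurd (sub_eq_zero.mp h) h4
    · have h5 : (w + 1) * (w ^ 2 - w + 1) = 0 := by linear_combination h
      rcases mul_eq_zero.mp h5 with h6 | h6
      · exfalso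
        apply h2
        have : w = -1 := by linear_combination h6
        rw [this]; norm_num
      · push_cast
        linear_combination h6

lemma norm_quad {w : ℂ} (hw1 : ‖w‖ = 1) {t : ℤ} (hw : w ^ 2 = t * w - 1) (a b : ℤ) :
    ‖(a : ℂ) + b * w‖ ^ 2 = ((a ^ 2 + t * a * b + b ^ 2 : ℤ) : ℝ) := by
  have hc : w * starRingEnd ℂ w = 1 := by
    rw [Complex.mul_conj, Complex.normSq_eq_norm_sq, hw1]; simp
  have hw0 : w ≠ 0 := by
    rintro rfl
    simp at hw1
  have hsum : w + starRingEnd ℂ w = t := by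
    have : w * (w + starRingEnd ℂ w - t) = 0 := by linear_combination hw + hc
    rcases mul_eq_zero.mp this with h | h
    · exact absurd h hw0
    · linear_combination h
  have h : ((‖(a : ℂ) + b * w‖ ^ 2 : ℝ) : ℂ) = ((a ^ 2 + t * a * b + b ^ 2 : ℤ) : ℂ) := by
    push_cast
    rw [← Complex.mul_conj']
    simp only [map_add, map_mul, map_intCast]
    linear_combination (a : ℂ) * b * hsum + (b : ℂ) ^ 2 * hc
  exact_mod_cast h

/-- At a level dividing `6` the mean is a rational integer. -/
lemma mean_six {N : ℕ} (hN : N ∣ 6) (f : ℤ[X]) {z : ℂ} (hz : IsPrimitiveRoot z N) :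
    ∃ k : ℤ, mean N f = k ∧ ‖aeval z f‖ ^ 2 = k := by
  have hN0 : 0 < N := Nat.pos_of_dvd_of_pos hN (by norm_num)
  obtain ⟨t, ht⟩ := quad_of_six hN
  obtain ⟨a, b, hab⟩ := two_term t f
  have h1 : ∀ w : ℂ, IsPrimitiveRoot w N → ‖aeval w f‖ ^ 2 =
      ((a ^ 2 + t * a * b + b ^ 2 : ℤ) : ℝ) := by
    intro w hw
    rw [hab w (ht w hw)]
    exact norm_quad (hw.norm'_eq_one hN0.ne') (ht w hw) a b
  refine ⟨a ^ 2 + t * a * b + b ^ 2, ?_, h1 z hz⟩
  unfold mean
  rw [sum_congr rfl fun w hw => h1 w ((mem_prim hN0).mp hw), sum_const, prim_card, nsmul_eq_mul]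
  have : (0 : ℝ) < N.totient := by exact_mod_cast Nat.totient_pos.mpr hN0
  field_simp

/-! ### Small means -/

/-- The mean is `0`, `1` or at least `3/2`. -/
def Sm (x : ℝ) : Prop := x = 0 ∨ x = 1 ∨ 3 / 2 ≤ x

lemma dvd_six_of {N : ℕ} (hsq : ∀ p, p.Prime → ¬ p * p ∣ N)
    (hbig : ∀ p, p.Prime → p ∣ N → p < 5) : N ∣ 6 := by
  have hsqf : Squarefree N := by
    rw [Nat.squarefree_iff_prime_squarefree]
    exact hsq
  rw [← Nat.prod_primeFactors_of_squarefree hsqf]
  have h1 : N.primeFactors ⊆ {2, 3} := by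
    intro p hp
    have h2 := Nat.prime_of_mem_primeFactors hp
    have h3 := hbig p h2 (Nat.dvd_of_mem_primeFactors hp)
    have h4 := h2.two_le
    interval_cases p
    · simp
    · simp
    · exact absurd h2 (by norm_num)
  calc ∏ p ∈ N.primeFactors, p ∣ ∏ p ∈ ({2, 3} : Finset ℕ), p := prod_dvd_prod_of_subset _ _ _ h1
    _ = 6 := by decide

/-- Structure: either `p * p ∣ N`, or `N ∣ 6`, or `N = p * m` with `p ≥ 5` the largest prime. -/
lemma cases_level {N : ℕ} (hN : 0 < N) :
    (∃ p m, p.Prime ∧ 0 < m ∧ p ∣ m ∧ N = p * m ∧ m < N) ∨ N ∣ 6 ∨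
    (∃ p m, p.Prime ∧ 5 ≤ p ∧ 0 < m ∧ p.Coprime m ∧ N = p * m ∧ m < N ∧
      (∀ q, q.Prime → ¬ q * q ∣ m) ∧ ∀ q, q.Prime → q ∣ m → q < p) := by
  by_cases hsq : ∃ p, p.Prime ∧ p * p ∣ N
  · left
    obtain ⟨p, hp, c, hc⟩ := hsq
    have hN' : N = p * (p * c) := by rw [hc, mul_assoc]
    have hc0 : 0 < c := by
      rcases Nat.eq_zero_or_pos c with h | h
      · rw [h, mul_zero] at hc; omega
      · exact h
    have hm : 0 < p * c := Nat.mul_pos hp.pos hc0
    refine ⟨p, p * c, hp, hm, dvd_mul_right _ _, hN', ?_⟩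
    conv_rhs => rw [hN']
    exact (Nat.lt_mul_iff_one_lt_left hm).mpr hp.one_lt
  · push Not at hsq
    right
    by_cases h5 : ∀ p, p.Prime → p ∣ N → p < 5
    · left
      exact dvd_six_of hsq h5
    · right
      push Not at h5
      obtain ⟨q, hq, hqN, hq5⟩ := h5
      have hne : N.primeFactors.Nonempty := ⟨q, Nat.mem_primeFactors.mpr ⟨hq, hqN, hN.ne'⟩⟩
      obtain ⟨p, hpmem, hmax⟩ := exists_max_image N.primeFactors id hne
      have hp := Nat.prime_of_mem_primeFactors hpmem
      obtain ⟨c, hc⟩ := Nat.dvd_of_mem_primeFactors hpmem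
      have hc0 : 0 < c := by
        rcases Nat.eq_zero_or_pos c with h | h
        · rw [h, mul_zero] at hc; omega
        · exact h
      have hndvd : ¬ p ∣ c := by
        rintro ⟨d, hd⟩
        exact hsq p hp ⟨d, by rw [hc, hd, mul_assoc]⟩
      refine ⟨p, c, hp, ?_, hc0, (hp.coprime_iff_not_dvd).mpr hndvd, hc, ?_, ?_, ?_⟩
      · exact hq5.trans (hmax q (Nat.mem_primeFactors.mpr ⟨hq, hqN, hN.ne'⟩))
      · rw [hc]
        exact (Nat.lt_mul_iff_one_lt_left hc0).mpr hp.one_lt
      · intro r hr h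
        exact hsq r hr (h.trans ⟨p, by rw [hc, mul_comm]⟩)
      · intro r hr hrc
        have h1 : r ∣ N := hrc.trans ⟨p, by rw [hc, mul_comm]⟩
        have h2 : r ≤ p := hmax r (Nat.mem_primeFactors.mpr ⟨hr, h1, hN.ne'⟩)
        rcases h2.lt_or_eq with h | h
        · exact h
        · exact absurd (h ▸ hrc) hndvd

/-- Decomposition at `p ∣ m`: the value is zero, comes from the level `m`, or the mean splits into
two parts at least one. -/
lemma dvd_data {p m : ℕ} (hp : p.Prime) (hm : 0 < m) (hpm : p ∣ m) (f : ℤ[X]) {z : ℂ}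
    (hz : IsPrimitiveRoot z (p * m)) :
    (aeval z f = 0 ∧ mean (p * m) f = 0) ∨
    (∃ (i : ℕ) (g : ℤ[X]), aeval z f = z ^ i * aeval (z ^ p) g ∧ mean (p * m) f = mean m g) ∨
    (∃ g h : ℤ[X], aeval (z ^ p) g ≠ 0 ∧ aeval (z ^ p) h ≠ 0 ∧
      mean (p * m) f = mean m g + mean m h) ∨ 3 ≤ mean (p * m) f := by
  classical
  obtain ⟨s, rfl⟩ := exists_sections hp.pos f
  rw [mean_dvd hp hm hpm, aeval_sections]
  have hzp : IsPrimitiveRoot (z ^ p) m := hz.pow (Nat.mul_pos hp.pos hm) rfl
  set T := (range p).filter fun i => aeval (z ^ p) (s i) ≠ 0 with hT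
  have hsum : ∑ i ∈ range p, z ^ i * aeval (z ^ p) (s i) =
      ∑ i ∈ T, z ^ i * aeval (z ^ p) (s i) := by
    symm
    apply sum_subset (filter_subset _ _)
    intro i hi hi'
    rw [mem_filter, not_and, not_not] at hi'
    rw [hi' hi, mul_zero]
  have hsum2 : ∑ i ∈ range p, mean m (s i) = ∑ i ∈ T, mean m (s i) := by
    symm
    apply sum_subset (filter_subset _ _)
    intro i hi hi'
    rw [mem_filter, not_and, not_not] at hi'
    exact mean_eq_zero hm _ hzp (hi' hi)
  have hone : ∀ i ∈ T, 1 ≤ mean m (s i) := by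
    intro i hi
    rw [hT, mem_filter] at hi
    exact one_le_mean hm _ hzp hi.2
  have hcard : (T.card : ℝ) ≤ ∑ i ∈ T, mean m (s i) := by
    have := card_nsmul_le_sum T (fun i => mean m (s i)) 1 hone
    simpa using this
  rw [hsum, hsum2]
  rcases Nat.lt_or_ge T.card 3 with h3 | h3
  · interval_cases h : T.card
    · left
      have : T = ∅ := card_eq_zero.mp h
      rw [this]; simp
    · right; left
      obtain ⟨i, hi⟩ := card_eq_one.mp h
      exact ⟨i, s i, by rw [hi, sum_singleton], by rw [hi, sum_singleton]⟩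
    · right; right; left
      obtain ⟨i, j, hij, hTij⟩ := card_eq_two.mp h
      refine ⟨s i, s j, ?_, ?_, by rw [hTij, sum_pair hij]⟩
      · have : i ∈ T := by rw [hTij]; simp
        rw [hT, mem_filter] at this
        exact this.2
      · have : j ∈ T := by rw [hTij]; simp
        rw [hT, mem_filter] at this
        exact this.2
  · right; right; right
    have : (3 : ℝ) ≤ T.card := by exact_mod_cast h3
    linarith

/-- Every mean is `0`, `1` or at least `3/2`. -/
theorem small (N : ℕ) : 0 < N → ∀ f : ℤ[X], Sm (mean N f) := by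
  induction N using Nat.strong_induction_on with
  | _ N ih =>
    intro hN f
    have hz := Complex.isPrimitiveRoot_exp N hN.ne'
    set z := Complex.exp (2 * Real.pi * Complex.I / N)
    rcases cases_level hN with ⟨p, m, hp, hm, hpm, rfl, hlt⟩ | h6 |
      ⟨p, m, hp, hp5, hm, hcop, rfl, hlt, _, _⟩
    · rcases dvd_data hp hm hpm f hz with ⟨_, h⟩ | ⟨i, g, _, h⟩ | ⟨g, h', hg, hh, h⟩ | h
      · left; exact h
      · rw [h]; exact ih m hlt hm g
      · right; right
        have hzp : IsPrimitiveRoot (z ^ p) m := hz.pow (Nat.mul_pos hp.pos hm) rfl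
        have h1 := one_le_mean hm g hzp hg
        have h2 := one_le_mean hm h' hzp hh
        rw [h]; linarith
      · right; right; linarith
    · obtain ⟨k, hk, _⟩ := mean_six h6 f hz
      have h0 := mean_nonneg N f
      rw [hk] at h0 ⊢
      have h0' : 0 ≤ k := by exact_mod_cast h0
      rcases lt_or_ge k 2 with h | h
      · interval_cases k
        · left; simp
        · right; left; simp
      · right; right
        have : (2 : ℝ) ≤ k := by exact_mod_cast h
        linarith
    · obtain ⟨w, η, hw, hη, hwη⟩ := split_root hp.pos hm hcop hz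
      obtain ⟨a, i0, T, hTp, hne, h1, h2, h3⟩ := cop_data hp hm hcop f hw hη
      have hp5' : (5 : ℝ) ≤ p := by exact_mod_cast hp5
      set μ := mean (p * m) f
      rcases Nat.lt_or_ge T.card 3 with hT | hT
      · interval_cases h : T.card
        · have : T = ∅ := card_eq_zero.mp h
          rw [this] at h1
          simp only [sum_empty, mul_zero, add_zero] at h1
          left
          rcases mul_eq_zero.mp h1 with h4 | h4
          · linarith
          · exact h4
        · obtain ⟨i, hi⟩ := card_eq_one.mp h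
          rw [hi] at h1
          simp only [sum_singleton, sub_self, mean_zero, mul_zero, add_zero, Nat.cast_one] at h1
          have h4 : μ = mean m (a i - a i0) := mul_left_cancel₀ (by linarith) h1
          rw [h4]
          exact ih m hlt hm _
        · obtain ⟨i, j, hij, hTij⟩ := card_eq_two.mp h
          rw [hTij] at h1
          rw [sum_pair hij, sum_pair hij, sum_pair hij, sum_pair hij] at h1
          have h5 : 1 ≤ mean m (a i - a i0) := one_le_mean hm _ hη (by
            rw [map_sub]; exact sub_ne_zero.mpr (hne i (by rw [hTij]; simp)))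
          have h6 : 1 ≤ mean m (a j - a i0) := one_le_mean hm _ hη (by
            rw [map_sub]; exact sub_ne_zero.mpr (hne j (by rw [hTij]; simp)))
          have h7 := mean_nonneg m (a i - a j)
          have h8 := mean_nonneg m (a j - a i)
          have h9 := mean_nonneg m (a i - a i)
          have h10 := mean_nonneg m (a j - a j)
          right; right
          push_cast at h1
          nlinarith
      · right; right
        have : (3 : ℝ) ≤ T.card := by exact_mod_cast hT
        nlinarith

end Pool.Agent.K4H3.CH
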