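import Pool.Agent.K4H3.CH.Six

set_option autoImplicit false

open Polynomial Finset

namespace Pool.Agent.K4H3.CH

open Pool.Agent.Helper781.CycHouse

/-- Root of unity. -/
def RU (u : ℂ) : Prop := ∃ n : ℕ, 0 < n ∧ u ^ n = 1

lemma RU.mul {u v : ℂ} (hu : RU u) (hv : RU v) : RU (u * v) := by
  obtain ⟨n, hn, h1⟩ := hu
  obtain ⟨m, hm, h2⟩ := hv
  refine ⟨n * m, Nat.mul_pos hn hm, ?_⟩
  rw [mul_pow, pow_mul, h1, one_pow, mul_comm n m, pow_mul, h2, one_pow, one_mul]

lemma RU.inv {u : ℂ} (hu : RU u) : RU u⁻¹ := by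
  obtain ⟨n, hn, h1⟩ := hu
  exact ⟨n, hn, by rw [inv_pow, h1, inv_one]⟩

lemma RU.neg {u : ℂ} (hu : RU u) : RU (-u) := by
  obtain ⟨n, hn, h1⟩ := hu
  refine ⟨2 * n, by omega, ?_⟩
  rw [pow_mul, neg_sq, ← pow_mul, mul_comm, pow_mul, h1, one_pow]

lemma RU.pow {u : ℂ} (hu : RU u) (k : ℕ) : RU (u ^ k) := by
  obtain ⟨n, hn, h1⟩ := hu
  exact ⟨n, hn, by rw [← pow_mul, mul_comm, pow_mul, h1, one_pow]⟩

lemma RU.ne_zero {u : ℂ} (hu : RU u) : u ≠ 0 := by
  obtain ⟨n, hn, h1⟩ := hu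
  rintro rfl
  rw [zero_pow hn.ne'] at h1
  exact zero_ne_one h1

lemma RU.norm {u : ℂ} (hu : RU u) : ‖u‖ = 1 := by
  obtain ⟨n, hn, h1⟩ := hu
  exact Complex.norm_eq_one_of_pow_eq_one h1 hn.ne'

lemma RU.of_prim {u : ℂ} {N : ℕ} (hN : 0 < N) (hu : IsPrimitiveRoot u N) : RU u :=
  ⟨N, hN, hu.pow_eq_one⟩

/-- The height of a cyclotomic integer does not change under multiplication by a root of unity. -/
lemma Ht_root_mul {N : ℕ} (hN : 0 < N) {z : ℂ} (hz : IsPrimitiveRoot z N) (f : ℤ[X]) {u : ℂ}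
    (hu : RU u) : Ht (u * aeval z f) = Ht (aeval z f) := by
  obtain ⟨k, hk, huk⟩ := hu
  set L := N * k with hL
  have hL0 : 0 < L := Nat.mul_pos hN hk
  have : NeZero L := ⟨hL0.ne'⟩
  have hθ := Complex.isPrimitiveRoot_exp L hL0.ne'
  set θ := Complex.exp (2 * Real.pi * Complex.I / L)
  have hzL : z ^ L = 1 := by rw [hL, pow_mul, hz.pow_eq_one, one_pow]
  have huL : u ^ L = 1 := by rw [hL, mul_comm, pow_mul, huk, one_pow]
  obtain ⟨a, _, ha⟩ := hθ.eq_pow_of_pow_eq_one hzL
  obtain ⟨b, _, hb⟩ := hθ.eq_pow_of_pow_eq_one huL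
  have h1 : aeval z f = aeval θ (f.comp (X ^ a)) := by
    rw [aeval_comp, map_pow, aeval_X, ha]
  have h2 : u * aeval z f = aeval θ (X ^ b * f.comp (X ^ a)) := by
    rw [map_mul, map_pow, aeval_X, hb, ← h1]
  rw [h2, h1, Ht_eq_mean hL0 hθ, Ht_eq_mean hL0 hθ]
  unfold mean
  congr 1
  refine sum_congr rfl fun w hw => ?_
  rw [map_mul, map_pow, aeval_X, norm_mul, norm_pow,
    ((mem_prim hL0).mp hw).norm'_eq_one hL0.ne', one_pow, one_mul]

lemma normSq_one_sub {w : ℂ} (hw : ‖w‖ = 1) : ‖1 - w‖ ^ 2 = 2 - 2 * w.re := by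
  have h : ‖w‖ ^ 2 = w.re * w.re + w.im * w.im := by
    rw [← Complex.normSq_eq_norm_sq, Complex.normSq_apply]
  rw [hw] at h
  rw [← Complex.normSq_eq_norm_sq, Complex.normSq_apply]
  simp only [Complex.sub_re, Complex.one_re, Complex.sub_im, Complex.one_im]
  linarith [h]

/-- The height of `1 - ω`. -/
lemma Ht_one_sub {n : ℕ} (hn : 0 < n) {ω : ℂ} (hω : IsPrimitiveRoot ω n) :
    Ht (1 - ω) = 2 - 2 * (ArithmeticFunction.moebius n : ℝ) / n.totient := by
  have h1 : 1 - ω = aeval ω (1 - X : ℤ[X]) := by simp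
  rw [h1, Ht_eq_mean hn hω]
  unfold mean
  have h2 : ∑ z ∈ primitiveRoots n ℂ, ‖aeval z (1 - X : ℤ[X])‖ ^ 2 =
      ∑ z ∈ primitiveRoots n ℂ, (2 - 2 * z.re) := by
    refine sum_congr rfl fun z hz => ?_
    have := ((mem_prim hn).mp hz).norm'_eq_one hn.ne'
    rw [← normSq_one_sub this]
    simp
  have h3 : ∑ z ∈ primitiveRoots n ℂ, z.re = (ArithmeticFunction.moebius n : ℝ) := by
    rw [← Complex.re_sum, sum_prim_eq_moebius hn, Complex.intCast_re]
  have hp : (0 : ℝ) < n.totient := by exact_mod_cast Nat.totient_pos.mpr hn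
  rw [h2, sum_sub_distrib, sum_const, prim_card, ← mul_sum, h3, nsmul_eq_mul]
  field_simp

lemma orderOf_pos_of_RU {u : ℂ} (hu : RU u) : 0 < orderOf u := by
  obtain ⟨n, hn, h⟩ := hu
  exact orderOf_pos_iff.mpr (isOfFinOrder_iff_pow_eq_one.mpr ⟨n, hn, h⟩)

/-- The height of a difference of two roots of unity. -/
lemma Ht_sub_roots {α β : ℂ} (hα : RU α) (hβ : RU β) :
    Ht (α - β) = 2 - 2 * (ArithmeticFunction.moebius (orderOf (β / α)) : ℝ) /
      (orderOf (β / α)).totient := by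
  have hω : RU (β / α) := by rw [div_eq_mul_inv]; exact hβ.mul hα.inv
  have h0 := orderOf_pos_of_RU hω
  have hprim := IsPrimitiveRoot.orderOf (β / α)
  have h1 : α - β = α * aeval (β / α) (1 - X : ℤ[X]) := by
    simp only [map_sub, map_one, aeval_X]
    field_simp [hα.ne_zero]
  rw [h1, Ht_root_mul h0 hprim _ hα, ← Ht_one_sub h0 hprim]
  simp

lemma moebius_cases (n : ℕ) : ArithmeticFunction.moebius n = -1 ∨
    ArithmeticFunction.moebius n = 0 ∨ ArithmeticFunction.moebius n = 1 := by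
  rcases ArithmeticFunction.moebius_eq_or n with h | h | h
  · right; left; exact h
  · right; right; exact h
  · left; exact h

/-- `Ht ≤ 4` and `≠ 7 / 2` for differences of two roots of unity. -/
lemma Ht_sub_le {α β : ℂ} (hα : RU α) (hβ : RU β) : Ht (α - β) ≤ 4 ∧ Ht (α - β) ≠ 7 / 2 := by
  have hω : RU (β / α) := by rw [div_eq_mul_inv]; exact hβ.mul hα.inv
  have h0 := orderOf_pos_of_RU hω
  have hp : 1 ≤ (orderOf (β / α)).totient := Nat.totient_pos.mpr h0
  have hpR : (1 : ℝ) ≤ (orderOf (β / α)).totient := by exact_mod_cast hp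
  rw [Ht_sub_roots hα hβ]
  constructor
  · rw [sub_le_iff_le_add, ← sub_le_iff_le_add']
    rw [le_div_iff₀ (by linarith)]
    rcases moebius_cases (orderOf (β / α)) with h | h | h <;> rw [h] <;> push_cast <;> linarith
  · intro h
    have h1 : 4 * (ArithmeticFunction.moebius (orderOf (β / α)) : ℝ) =
        -3 * (orderOf (β / α)).totient := by
      field_simp at h
      linarith
    have h2 : 4 * ArithmeticFunction.moebius (orderOf (β / α)) =
        -3 * ((orderOf (β / α)).totient : ℤ) := by exact_mod_cast h1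
    rcases moebius_cases (orderOf (β / α)) with h | h | h <;> rw [h] at h2 <;> omega

lemma ten_of {n : ℕ} (h : 4 * ArithmeticFunction.moebius n = (n.totient : ℤ)) (hn : 0 < n) :
    n = 10 := by
  have hp : 1 ≤ n.totient := Nat.totient_pos.mpr hn
  have h1 : ArithmeticFunction.moebius n = 1 ∧ n.totient = 4 := by
    rcases moebius_cases n with h1 | h1 | h1 <;> rw [h1] at h <;> omega
  obtain ⟨h1, h2⟩ := h1
  have hsq : Squarefree n := by
    rw [← ArithmeticFunction.moebius_ne_zero_iff_squarefree, h1]; exact one_ne_zero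
  have h3 : n.primeFactors ⊆ {2, 3, 5} := by
    intro p hp
    have h4 := Nat.prime_of_mem_primeFactors hp
    have h5 : (p - 1) ∣ 4 := by
      rw [← h2, ← Nat.totient_prime h4]
      exact Nat.totient_dvd_of_dvd (Nat.dvd_of_mem_primeFactors hp)
    have h6 : p - 1 ≤ 4 := Nat.le_of_dvd (by norm_num) h5
    have h7 : p ≤ 5 := by omega
    interval_cases p
    · exact absurd h4 (by norm_num)
    · exact absurd h4 (by norm_num)
    · simp
    · simp
    · exact absurd h4 (by norm_num)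
    · simp
  have h4 : n ∣ 30 := by
    rw [← Nat.prod_primeFactors_of_squarefree hsq]
    calc ∏ p ∈ n.primeFactors, p ∣ ∏ p ∈ ({2, 3, 5} : Finset ℕ), p :=
          prod_dvd_prod_of_subset _ _ _ h3
      _ = 30 := by decide
  have h5 : n ∈ Nat.divisors 30 := Nat.mem_divisors.mpr ⟨h4, by norm_num⟩
  have hd : Nat.divisors 30 = {1, 2, 3, 5, 6, 10, 15, 30} := by decide
  rw [hd] at h5
  simp only [mem_insert, mem_singleton] at h5
  have hm5 : ArithmeticFunction.moebius 5 = -1 :=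
    ArithmeticFunction.moebius_apply_prime (by norm_num)
  have t1 : Nat.totient 1 = 1 := by decide
  have t2 : Nat.totient 2 = 1 := by decide
  have t3 : Nat.totient 3 = 2 := by decide
  have t6 : Nat.totient 6 = 2 := by decide
  have t15 : Nat.totient 15 = 8 := by decide
  have t30 : Nat.totient 30 = 8 := by decide
  rcases h5 with rfl | rfl | rfl | rfl | rfl | rfl | rfl | rfl
  · omega
  · omega
  · omega
  · rw [hm5] at h1; omega
  · omega
  · rfl
  · omega
  · omega

lemma prim_prime_of {p : ℕ} (hp : p.Prime) {x : ℂ} (h1 : x ^ p = 1) (h2 : x ≠ 1) :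
    IsPrimitiveRoot x p := by
  have : Fact p.Prime := ⟨hp⟩
  have := orderOf_eq_prime h1 h2
  rw [← this]
  exact IsPrimitiveRoot.orderOf x

lemma alg32 {m t : ℝ} (ht : 0 < t) (h : 3 / 2 = 2 - 2 * m / t) : 4 * m = t := by
  field_simp at h
  linarith

/-- If `α + δ` (sum of two roots of unity) has height `3/2` then `δ / α` has order five. -/
lemma order_five {α δ : ℂ} (hα : RU α) (hδ : RU δ) (h : Ht (α + δ) = 3 / 2) :
    IsPrimitiveRoot (δ / α) 5 := by
  have h1 := Ht_sub_roots hα hδ.neg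
  rw [sub_neg_eq_add, h] at h1
  have hω : RU (-δ / α) := by rw [div_eq_mul_inv]; exact hδ.neg.mul hα.inv
  have h0 := orderOf_pos_of_RU hω
  have hp : 1 ≤ (orderOf (-δ / α)).totient := Nat.totient_pos.mpr h0
  have hpR : (1 : ℝ) ≤ (orderOf (-δ / α)).totient := by exact_mod_cast hp
  have h2 : 4 * (ArithmeticFunction.moebius (orderOf (-δ / α)) : ℝ) =
      (orderOf (-δ / α)).totient := alg32 (by linarith) h1
  have h3 : 4 * ArithmeticFunction.moebius (orderOf (-δ / α)) =
      ((orderOf (-δ / α)).totient : ℤ) := by exact_mod_cast h2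
  have h4 := ten_of h3 h0
  have hprim : IsPrimitiveRoot (-δ / α) 10 := by rw [← h4]; exact IsPrimitiveRoot.orderOf _
  have h5 : (-δ / α) ^ 5 = -1 := by
    have h6 : (-δ / α) ^ 5 ≠ 1 := hprim.pow_ne_one_of_pos_of_lt (by norm_num) (by norm_num)
    have h7 : ((-δ / α) ^ 5 - 1) * ((-δ / α) ^ 5 + 1) = 0 := by
      linear_combination hprim.pow_eq_one
    rcases mul_eq_zero.mp h7 with h | h
    · exact absurd (sub_eq_zero.mp h) h6
    · linear_combination h
  have h6 : δ / α = -(-δ / α) := by ring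
  refine prim_prime_of (by norm_num) ?_ ?_
  · rw [h6, Odd.neg_pow (by decide), h5]; norm_num
  · intro h7
    have h8 : -δ / α = -1 := by rw [← h7]; ring
    exact hprim.pow_ne_one_of_pos_of_lt (show 2 ≠ 0 by norm_num) (show 2 < 10 by norm_num)
      (by rw [h8]; norm_num)

/-- If `|α - β|^2 = 3` for unit `α`, `β` then `β / α` is a primitive cube root of unity. -/
lemma order_three {α β : ℂ} (hα : ‖α‖ = 1) (hβ : ‖β‖ = 1) (h : ‖α - β‖ ^ 2 = 3) :
    IsPrimitiveRoot (β / α) 3 := by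
  have hα0 : α ≠ 0 := by
    rintro rfl
    simp at hα
  set ω := β / α with hω
  have hω1 : ‖ω‖ = 1 := by rw [hω, norm_div, hα, hβ, div_one]
  have h1 : ‖1 - ω‖ ^ 2 = 3 := by
    have : α - β = α * (1 - ω) := by rw [hω]; field_simp
    rw [this, norm_mul, hα, one_mul] at h
    exact h
  rw [normSq_one_sub hω1] at h1
  have hc : ω * starRingEnd ℂ ω = 1 := by
    rw [Complex.mul_conj, Complex.normSq_eq_norm_sq, hω1]; simp
  have hs : ω + starRingEnd ℂ ω = -1 := by
    rw [Complex.add_conj]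
    have : ω.re = -1 / 2 := by linarith
    rw [this]; norm_num
  have h3 : ω ^ 2 + ω + 1 = 0 := by linear_combination ω * hs - hc
  refine prim_prime_of (by norm_num) ?_ ?_
  · linear_combination (ω - 1) * h3
  · intro h4
    rw [h4] at h3
    norm_num at h3

end Pool.Agent.K4H3.CH
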